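import Pool.Agent.H167R2.KLWeight

/-!
# Dimension-free partial signings with the fourth root of the logarithm

A version of `H167KL.weighted` whose cost is also bounded by the fourth root of `log (1 / ε)`, and
which is small for the rows of small energy.
-/

namespace Q156.Kom

open Finset Real H167FK H167KL H167BJ H167BK

section block

variable {I J : Type*} [Fintype I] [Fintype J]

/-- The cost of a block. -/
noncomputable def c1 (t M : ℝ) : ℝ :=
  min (cost t M) (520 * Real.sqrt (Real.sqrt (960 * M)) * Real.sqrt t)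

theorem c1_nonneg {t M : ℝ} (ht : 1 ≤ t) : 0 ≤ c1 t M :=
  le_min (cost_nonneg ht) (by positivity)

theorem Bd_le2 (Q : Blk I J) {i : I} (hi : i ∈ Q.I1) :
    Q.sys.Bd Q.sys.L i ≤ c1 Q.t Q.M * Q.τ i := by
  have ht := Q.ht
  have hh := Q.h_ge
  have hst : 0 ≤ Real.sqrt Q.t := Real.sqrt_nonneg _
  have hτ := Q.τ_pos i hi
  have hsh1 : 1 ≤ Real.sqrt Q.h := Real.one_le_sqrt.2 (by linarith)
  have hfirst : Q.sys.Bd Q.sys.L i ≤ cost Q.t Q.M * Q.τ i := Q.Bd_le hi
  have hsecond : Q.sys.Bd Q.sys.L i ≤ (520 * Real.sqrt Q.h * Real.sqrt Q.t) * Q.τ i := by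
    obtain ⟨h1, h2, -⟩ := Q.l0_spec hi
    have hTp : ∀ K, Q.sys.Tp K = ∑ k ∈ range K, (4 * dk Q.t Q.h k + rk Q.t Q.h k) := fun K => rfl
    have hl0 : Q.sys.l0 i = Q.l0 i := rfl
    unfold Sys.Bd
    rw [hTp, hTp, hl0]
    rcases (Q.τ_le i hi).eq_or_lt with h | h
    · rw [h1 h, h, mul_one, Finset.range_zero, Finset.sum_empty, sub_zero]
      have h3 := tail_cost ht hh 0 (Q.sys.L + 1) (Nat.zero_le _)
      rw [pow_zero, mul_one, ← Finset.range_eq_Ico] at h3
      refine h3.trans ?_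
      have : 0 ≤ Real.sqrt Q.h * Real.sqrt Q.t := by positivity
      nlinarith
    · have h3 : Q.l0 i ≤ Q.sys.L + 1 := (Q.sys.hl0L i hi).trans (Nat.le_succ _)
      have h4 : ∑ k ∈ range (Q.sys.L + 1), (4 * dk Q.t Q.h k + rk Q.t Q.h k)
          - ∑ k ∈ range (Q.l0 i), (4 * dk Q.t Q.h k + rk Q.t Q.h k)
          = ∑ k ∈ Finset.Ico (Q.l0 i) (Q.sys.L + 1), (4 * dk Q.t Q.h k + rk Q.t Q.h k) := by
        rw [← Finset.sum_range_add_sum_Ico _ h3]; ring
      rw [h4]
      refine (tail_cost ht hh _ _ h3).trans ?_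
      have h5 := h2 h
      have hs := Q.hs
      have h6 : (1 / 2 : ℝ) ^ Q.l0 i ≤ 2 * Q.τ i := by
        refine h5.le.trans ?_
        have : Q.τ i / Q.s ≤ Q.τ i := div_le_self hτ.le hs
        linarith
      calc 260 * Real.sqrt Q.h * Real.sqrt Q.t * (1 / 2) ^ Q.l0 i
          ≤ 260 * Real.sqrt Q.h * Real.sqrt Q.t * (2 * Q.τ i) :=
            mul_le_mul_of_nonneg_left h6 (by positivity)
        _ = (520 * Real.sqrt Q.h * Real.sqrt Q.t) * Q.τ i := by ring
  have hh2 : Q.h = Real.sqrt (960 * Q.M) := rfl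
  rw [hh2] at hsecond
  unfold c1
  rcases min_choice (cost Q.t Q.M) (520 * Real.sqrt (Real.sqrt (960 * Q.M)) * Real.sqrt Q.t)
    with h | h
  · rw [h]; exact hfirst
  · rw [h]; exact hsecond

/-- **Block lemma** with the improved cost. -/
theorem block2 (Q : Blk I J) : ∃ x : J → ℝ, (∀ j, |x j| ≤ 1) ∧ (∀ i ∈ Q.I0, ∑ j, Q.a i j * x j = 0) ∧
    (∀ i ∈ Q.I1, |∑ j, Q.a i j * x j| ≤ c1 Q.t Q.M * Q.τ i) ∧
    ((H167FK.Sys.alive x).card : ℝ) ≤ 20 * Q.I0.card
      + 2 * (Fintype.card J : ℝ) * exp (-Q.M) := by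
  classical
  have hM := Q.hM
  have hex : ∃ k : ℕ, ∃ x : J → ℝ, Q.sys.Inv x ∧ (H167FK.Sys.alive x).card = k :=
    ⟨_, _, Q.sys.inv_base, rfl⟩
  obtain ⟨x, hx, hxk⟩ := Nat.find_spec hex
  have hAx : ∀ i, Q.sys.A i x = ∑ j, Q.a i j * x j := by
    intro i
    unfold Sys.A
    simp only [Blk.sys, sub_zero]
  refine ⟨x, hx.box, fun i hi => ?_, fun i hi => ?_, ?_⟩
  · rw [← hAx]; exact hx.zero i hi
  · rw [← hAx]
    have h1 := hx.rows' hi
    have h2 : Q.sys.g0 = 0 := rfl
    rw [h2, mul_zero, add_zero] at h1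
    exact h1.trans (Bd_le2 Q hi)
  · by_contra hcon
    push Not at hcon
    set F := H167FK.Sys.alive x with hF
    have hexp : 0 < exp (-Q.M) := exp_pos _
    have hI0n : (0 : ℝ) ≤ Q.I0.card := Nat.cast_nonneg _
    have hJn : (0 : ℝ) ≤ 2 * (Fintype.card J : ℝ) * exp (-Q.M) := by positivity
    have hn : 0 < F.card := by
      have : (0 : ℝ) < F.card := by linarith
      exact_mod_cast this
    have hnR : (0 : ℝ) < F.card := by exact_mod_cast hn
    obtain ⟨y, hy, hyc⟩ := Q.sys.step x hx F hn (Finset.Subset.refl _)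
      (fun i _ _ v hv _ => hv) (by
        have : (Q.sys.I0.card : ℝ) = Q.I0.card := rfl
        rw [this]; linarith)
      (by
        intro y hy1 hy2
        have hg := Q.good F (by linarith) y hy1 hy2
        constructor
        · have h1 : ∑ i ∈ Q.sys.R F F, Q.h ^ 2 / 16 * (Q.sys.W F y i / Q.sys.Yl (Q.sys.lev F i))
              ≤ ∑ i ∈ Q.sys.med F, ek Q.t (Q.sys.lev F i)
                / (16 * θk Q.t Q.h (Q.sys.lev F i) ^ 2) * Q.sys.W F y i := by
            refine (Finset.sum_le_sum_of_subset_of_nonneg (f := fun i =>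
              Q.h ^ 2 / 16 * (Q.sys.W F y i / Q.sys.Yl (Q.sys.lev F i)))
              (Finset.filter_subset _ _) (fun i _ _ => ?_)).trans
              (Finset.sum_le_sum fun i _ => ?_)
            · have h2 := Q.sys.W_pos F y i
              have h3 := Q.sys.Y_pos (Q.sys.lev F i)
              positivity
            · have h2 := Q.sys.W_pos F y i
              have h3 : 0 < wk Q.t Q.h (Q.sys.lev F i) := wk_pos Q.ht Q.h_ge _
              have h4 : wk Q.t Q.h (Q.sys.lev F i) ≤ Q.sys.Yl (Q.sys.lev F i) := wk_le_yk _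
              have hθ := θk_pos Q.ht Q.h_ge (Q.sys.lev F i)
              have he := ek_pos Q.ht (Q.sys.lev F i)
              have hh := Q.h_ge
              have h5 : Q.sys.W F y i / Q.sys.Yl (Q.sys.lev F i)
                  ≤ Q.sys.W F y i / wk Q.t Q.h (Q.sys.lev F i) :=
                div_le_div_of_nonneg_left h2.le h3 h4
              calc Q.h ^ 2 / 16 * (Q.sys.W F y i / Q.sys.Yl (Q.sys.lev F i))
                  ≤ Q.h ^ 2 / 16 * (Q.sys.W F y i / wk Q.t Q.h (Q.sys.lev F i)) :=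
                    mul_le_mul_of_nonneg_left h5 (by positivity)
                _ = _ := by
                    unfold wk
                    field_simp
          rw [← Finset.mul_sum] at h1
          have h2 := h1.trans hg
          rw [Q.h_sq] at h2
          have h3 : Q.M * (60 * ∑ i ∈ Q.sys.R F F, Q.sys.W F y i / Q.sys.Yl (Q.sys.lev F i))
              ≤ Q.M * (101 / 100 * F.card) := by linarith
          have h4 := le_of_mul_le_mul_left h3 (by linarith)
          linarith
        · intro Tt hTt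
          have h1 : ∑ i ∈ Tt, 30 * Q.M
              ≤ ∑ i ∈ Q.sys.med F, ek Q.t (Q.sys.lev F i)
                / (16 * θk Q.t Q.h (Q.sys.lev F i) ^ 2) * Q.sys.W F y i := by
            have hsub : Tt ⊆ Q.sys.med F := fun i hi =>
              Finset.filter_subset _ _ (hTt i hi).1
            refine (Finset.sum_le_sum fun i hi => ?_).trans
              (Finset.sum_le_sum_of_subset_of_nonneg hsub (f := fun i =>
              ek Q.t (Q.sys.lev F i) / (16 * θk Q.t Q.h (Q.sys.lev F i) ^ 2) * Q.sys.W F y i)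
              (fun i _ _ => ?_))
            · have h2 := Q.sys.tight_le (Q.sys.lev F i) i hy1 (hTt i hi).2
              have h3 : Q.sys.W F y i = wk Q.t Q.h (Q.sys.lev F i)
                  * Q.sys.φ (Q.sys.lev F i) F i y := rfl
              have hθ := θk_pos Q.ht Q.h_ge (Q.sys.lev F i)
              have he := ek_pos Q.ht (Q.sys.lev F i)
              have h4 : ek Q.t (Q.sys.lev F i) / (16 * θk Q.t Q.h (Q.sys.lev F i) ^ 2)
                  * wk Q.t Q.h (Q.sys.lev F i) = 60 * Q.M := by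
                unfold wk
                rw [Q.h_sq]
                field_simp
                norm_num
              rw [h3, ← mul_assoc, h4]
              nlinarith
            · have h2 := Q.sys.W_pos F y i
              have hθ := θk_pos Q.ht Q.h_ge (Q.sys.lev F i)
              have he := ek_pos Q.ht (Q.sys.lev F i)
              positivity
          rw [Finset.sum_const, nsmul_eq_mul] at h1
          have h2 := h1.trans hg
          have h3 : Q.M * (20 * (Tt.card : ℝ)) ≤ Q.M * (F.card : ℝ) := by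
            have h4 : 0 ≤ Q.M * (F.card : ℝ) := by positivity
            linarith
          exact le_of_mul_le_mul_left h3 (by positivity))
      (by
        intro i hi
        obtain ⟨v, hv, hv2⟩ := (Finset.mem_filter.mp hi).2
        refine ⟨v, Finset.mem_univ v, ?_⟩
        rw [Q.b_eq]
        have hθ := θk_pos Q.ht Q.h_ge (Q.sys.lev F i)
        have h1 : 0 < Q.sys.sm (Q.sys.lev F i) i v ^ 2 := by
          have : Q.sys.sm (Q.sys.lev F i) i v ≠ 0 := hv2
          positivity
        positivity)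
    exact Nat.find_min hex (m := (H167FK.Sys.alive y).card) (by rw [← hxk]; exact hyc) ⟨y, hy, rfl⟩


end block

section weighted

variable {I : Type*} [Fintype I] {n : ℕ}

/-- Fourth root. -/
noncomputable def qt (x : ℝ) : ℝ := Real.sqrt (Real.sqrt x)

theorem qt_nonneg (x : ℝ) : 0 ≤ qt x := Real.sqrt_nonneg _

theorem qt_pow {x : ℝ} (hx : 0 ≤ x) : qt x ^ 4 = x := by
  unfold qt
  have h1 : Real.sqrt (Real.sqrt x) ^ 2 = Real.sqrt x := Real.sq_sqrt (Real.sqrt_nonneg _)
  calc Real.sqrt (Real.sqrt x) ^ 4 = (Real.sqrt (Real.sqrt x) ^ 2) ^ 2 := by ring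
    _ = x := by rw [h1, Real.sq_sqrt hx]

theorem qt_mono {x y : ℝ} (h : x ≤ y) : qt x ≤ qt y := Real.sqrt_le_sqrt (Real.sqrt_le_sqrt h)

theorem qt_pos {x : ℝ} (h : 0 < x) : 0 < qt x := Real.sqrt_pos.2 (Real.sqrt_pos.2 h)

theorem qt_le_of_le_pow {x y : ℝ} (hy : 0 ≤ y) (h : x ≤ y ^ 4) : qt x ≤ y := by
  unfold qt
  rw [Real.sqrt_le_left hy, Real.sqrt_le_left (by positivity)]
  calc x ≤ y ^ 4 := h
    _ = (y ^ 2) ^ 2 := by ring

/-- One block, with a cost depending on the energy of the row on the block. -/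
theorem block_k2 (a : I → Fin n → ℝ) (t : ℝ) (ht : 1 ≤ t) (a1 : ∀ i j, |a i j| ≤ 1)
    (hcolt : ∀ j, ∑ i, a i j ^ 2 ≤ t) (s : ℕ) (hs3 : 3 ≤ s)
    (Y : ℝ) (hY : 1 ≤ Y) (ε : ℝ)
    (h1 : 16 ≤ ε * s) (h2 : 8 * (s : ℝ) ^ 8 * exp (-Y) ≤ ε) (k : ℕ) :
    ∃ x : Fin n → ℝ, (∀ j, |x j| ≤ 1) ∧
      (∀ i, |∑ j ∈ B n (s ^ 8) k, a i j * x j| ≤ c1 t Y *
        (if rt (fun i j => a i j / Real.sqrt t) (s ^ 8) (s ^ 4) i k ≤ (s : ℝ) ^ 3 then
          min 1 (qt (960 * Y) * qt (∑ j ∈ B n (s ^ 8) k, (a i j / Real.sqrt t) ^ 2)) else 0)) ∧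
      (((B n (s ^ 8) k).filter (fun j => |x j| < 1)).card : ℝ)
        ≤ ((s ^ 8 : ℕ) : ℝ) ^ k * (ε / 2) := by
  classical
  have hs : 2 ≤ s := by omega
  have hst : 0 < Real.sqrt t := Real.sqrt_pos.mpr (by linarith)
  have hst2 : Real.sqrt t ^ 2 = t := Real.sq_sqrt (by linarith)
  set A : I → Fin n → ℝ := fun i j => a i j / Real.sqrt t with hA
  have hAsq : ∀ i j, a i j ^ 2 = t * A i j ^ 2 := by
    intro i j
    simp only [hA, div_pow, hst2]
    field_simp
  have hcol : ∀ j, ∑ i, A i j ^ 2 ≤ 1 := by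
    intro j
    have h3 := hcolt j
    simp only [hAsq] at h3
    rw [← Finset.mul_sum] at h3
    have h4 : t * ∑ i, A i j ^ 2 ≤ t * 1 := by linarith
    exact le_of_mul_le_mul_left h4 (by linarith)
  set M : ℕ := s ^ 8 with hM
  set σ : ℕ := s ^ 4 with hσdef
  have hs4 : 2 ≤ s ^ 4 := by
    calc 2 ≤ s := hs
      _ ≤ s ^ 4 := Nat.le_self_pow (by norm_num) s
  have hM2σ : 2 * σ ≤ M := by
    have : s ^ 8 = s ^ 4 * s ^ 4 := by ring
    rw [hM, this, hσdef]
    exact Nat.mul_le_mul_right _ hs4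
  have hM2 : 2 ≤ M := by omega
  have hMR : (M : ℝ) = (s : ℝ) ^ 8 := by rw [hM]; push_cast; ring
  have hsR : (2 : ℝ) ≤ s := by exact_mod_cast hs
  set T : I → ℝ := fun i => rt A M σ i k with hT
  have ht0 : ∀ i, 0 ≤ T i := fun i => rt_nonneg _ _ _ _ _
  have ht4 : ∀ i, T i ^ 4 = r A M σ i k := fun i => rt_pow _ _ _ _ _
  -- masses on the block
  set Eb : I → ℝ := fun i => ∑ j ∈ B n M k, A i j ^ 2 with hEb
  have hEb0 : ∀ i, 0 ≤ Eb i := fun i => Finset.sum_nonneg fun _ _ => sq_nonneg _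
  have hmass : ∀ i, ∑ j : B n M k, a i j ^ 2 = t * Eb i := by
    intro i
    rw [Finset.sum_coe_sort (B n M k) (fun j => a i j ^ 2)]
    simp only [hAsq, hEb]
    rw [← Finset.mul_sum]
  set q : ℝ := qt (960 * Y) with hq
  have hq4 : q ^ 4 = 960 * Y := qt_pow (by linarith)
  have hq1 : 1 ≤ q := by
    by_contra hcon
    push Not at hcon
    have h3 : q ^ 4 ≤ 1 := pow_le_one₀ (qt_nonneg _) hcon.le
    linarith
  let P : Blk I (B n M k) :=
    { a := fun i j => a i j
      I0 := Finset.univ.filter (fun i => (s : ℝ) ^ 3 < T i)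
      I1 := Finset.univ.filter (fun i => 0 < Eb i ∧ T i ≤ (s : ℝ) ^ 3)
      t := t
      ht := ht
      M := Y
      hM := hY
      a1 := fun i j => a1 i j
      col := fun j => hcolt j
      s := q
      hs := hq1
      hsM := hq4.ge
      τ := fun i => min 1 (q * qt (Eb i))
      τ_pos := by
        intro i hi
        rw [Finset.mem_filter] at hi
        have hs0 : (0 : ℝ) < q := by linarith
        exact lt_min zero_lt_one (mul_pos hs0 (qt_pos hi.2.1))
      τ_le := fun i _ => min_le_left _ _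
      τ_mass := by
        intro i _
        have hs0 : (0 : ℝ) < q := by linarith
        rcases le_total 1 (q * qt (Eb i)) with h | h
        · left; exact min_eq_left h
        · right
          rw [min_eq_right h, mul_div_cancel_left₀ _ hs0.ne', qt_pow (hEb0 i)]
          exact (hmass i).le }
  obtain ⟨x, hx1, hx0, hxI1, hxal⟩ := block2 P
  let X : Fin n → ℝ := fun j => if h : j ∈ B n M k then x ⟨j, h⟩ else 1
  have hXsum : ∀ i, ∑ j ∈ B n M k, a i j * X j = ∑ j : B n M k, a i j * x j := by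
    intro i
    rw [← Finset.sum_coe_sort (B n M k) (fun j => a i j * X j)]
    refine Finset.sum_congr rfl fun j _ => ?_
    simp [X, j.2]
  refine ⟨X, ?_, ?_, ?_⟩
  · intro j
    by_cases h : j ∈ B n M k
    · simp only [X, h, dif_pos]; exact hx1 _
    · simp [X, h]
  · intro i
    rw [hXsum]
    by_cases h : T i ≤ (s : ℝ) ^ 3
    · rw [if_pos h]
      rcases (hEb0 i).lt_or_eq with hpos | hzero
      · exact hxI1 i (Finset.mem_filter.mpr ⟨Finset.mem_univ i, hpos, h⟩)
      · -- zero row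
        have hz : ∀ j : B n M k, a i j = 0 := by
          intro j
          have h3 := hmass i
          rw [← hzero, mul_zero] at h3
          have h4 := Finset.single_le_sum (f := fun j : B n M k => a i j ^ 2)
            (fun j _ => sq_nonneg _) (Finset.mem_univ j)
          have h5 : a i j ^ 2 ≤ 0 := h4.trans h3.le
          have h6 := sq_nonneg (a i j)
          exact pow_eq_zero_iff (two_ne_zero) |>.mp (le_antisymm h5 h6)
        have h7 : ∑ j : B n M k, a i j * x j = 0 :=
          Finset.sum_eq_zero fun j _ => by rw [hz j, zero_mul]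
        rw [h7, abs_zero]
        exact mul_nonneg (c1_nonneg ht) (le_min zero_le_one (mul_nonneg (by linarith)
          (qt_nonneg _)))
    · rw [if_neg h]
      push Not at h
      have h7 : ∑ j : B n M k, a i j * x j = 0 :=
        hx0 i (Finset.mem_filter.mpr ⟨Finset.mem_univ i, h⟩)
      rw [h7]; simp
  · -- counting
    have hcard : ((B n M k).filter (fun j => |X j| < 1)).card = (H167FK.Sys.alive x).card := by
      rw [← Finset.card_map (Function.Embedding.subtype (fun j => j ∈ B n M k))]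
      congr 1
      ext j
      simp only [Finset.mem_filter, Finset.mem_map, H167FK.Sys.alive, Finset.mem_univ, true_and,
        Function.Embedding.coe_subtype]
      constructor
      · rintro ⟨hj, hj2⟩
        refine ⟨⟨j, hj⟩, ?_, rfl⟩
        simpa [X, hj] using hj2
      · rintro ⟨⟨j', hj'⟩, hj2, rfl⟩
        refine ⟨hj', ?_⟩
        simpa [X, hj'] using hj2
    rw [hcard]
    refine hxal.trans ?_
    have hrsum := sum_r_le A hcol M σ hM2 hM2σ k
    have hcardB : ((Fintype.card (B n M k) : ℕ) : ℝ) ≤ (M : ℝ) ^ (k + 1) := by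
      rw [Fintype.card_coe]
      exact_mod_cast card_B_le (n := n) M k hM2
    have hI0 : (P.I0.card : ℝ) * (s : ℝ) ^ 12 ≤ 2 * (M : ℝ) ^ (k + 1) := by
      have h3 := Finset.card_nsmul_le_sum P.I0 (fun i => r A M σ i k) ((s : ℝ) ^ 12) (by
        intro i hi
        have hi' := (Finset.mem_filter.mp hi).2
        rw [← ht4]
        calc (s : ℝ) ^ 12 = ((s : ℝ) ^ 3) ^ 4 := by ring
          _ ≤ T i ^ 4 := by gcongr)
      rw [nsmul_eq_mul] at h3
      refine h3.trans (le_trans ?_ hrsum)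
      exact Finset.sum_le_sum_of_subset_of_nonneg (Finset.subset_univ _)
        (fun i _ _ => r_nonneg _ _ _ _ _)
    have hMk : (0 : ℝ) < (M : ℝ) ^ k := by
      have : (0 : ℝ) < M := by exact_mod_cast (by omega : 0 < M)
      positivity
    have hMk1 : (M : ℝ) ^ (k + 1) = (M : ℝ) ^ k * (s : ℝ) ^ 8 := by rw [pow_succ, hMR]
    rw [hMk1] at hI0 hcardB
    have hs0 : (0 : ℝ) < s := by linarith
    -- number of frozen rows
    have hs3R : (3 : ℝ) ≤ s := by exact_mod_cast hs3
    have hI0' : 20 * (P.I0.card : ℝ) ≤ (M : ℝ) ^ k * (ε / 4) := by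
      have h3 : (20 * (P.I0.card : ℝ)) * (s : ℝ) ^ 12 ≤ ((M : ℝ) ^ k * (ε / 4)) * (s : ℝ) ^ 12 := by
        have h4 : 160 ≤ ε * (s : ℝ) ^ 4 := by
          have h5 : (27 : ℝ) ≤ (s : ℝ) ^ 3 := by
            calc (27 : ℝ) = 3 ^ 3 := by norm_num
              _ ≤ (s : ℝ) ^ 3 := pow_le_pow_left₀ (by norm_num) hs3R 3
          calc (160 : ℝ) ≤ 16 * 27 := by norm_num
            _ ≤ (ε * s) * (s : ℝ) ^ 3 := mul_le_mul h1 h5 (by norm_num) (by linarith)
            _ = ε * (s : ℝ) ^ 4 := by ring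
        have h5 : 0 < (M : ℝ) ^ k * (s : ℝ) ^ 8 := by positivity
        calc 20 * (P.I0.card : ℝ) * (s : ℝ) ^ 12 = 20 * ((P.I0.card : ℝ) * (s : ℝ) ^ 12) := by ring
          _ ≤ 20 * (2 * ((M : ℝ) ^ k * (s : ℝ) ^ 8)) := mul_le_mul_of_nonneg_left hI0 (by norm_num)
          _ = ((M : ℝ) ^ k * (s : ℝ) ^ 8) * (160 / 4) := by ring
          _ ≤ ((M : ℝ) ^ k * (s : ℝ) ^ 8) * ((ε * (s : ℝ) ^ 4) / 4) := by
              apply mul_le_mul_of_nonneg_left _ h5.le
              linarith
          _ = _ := by ring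
      exact le_of_mul_le_mul_right h3 (by positivity)
    have hexp : 0 < exp (-Y) := exp_pos _
    have hlast : 2 * (Fintype.card (B n M k) : ℝ) * exp (-P.M)
        ≤ (M : ℝ) ^ k * (ε / 4) := by
      calc 2 * (Fintype.card (B n M k) : ℝ) * exp (-P.M)
          ≤ 2 * ((M : ℝ) ^ k * (s : ℝ) ^ 8) * exp (-Y) := by
            apply mul_le_mul_of_nonneg_right _ hexp.le
            linarith
        _ = (M : ℝ) ^ k * ((8 * (s : ℝ) ^ 8 * exp (-Y)) / 4) := by ring
        _ ≤ (M : ℝ) ^ k * (ε / 4) := by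
            apply mul_le_mul_of_nonneg_left _ hMk.le
            linarith
    linarith

/-- The number of blocks that matter for a row. -/
theorem sum_cost (A : I → Fin n → ℝ) (s : ℕ) (hs4 : 4 ≤ s) (Y : ℝ) (hY : 1 ≤ Y)
    (hsY : 960 * Y ≤ (s : ℝ) ^ 4) (i : I) :
    ∑ k ∈ Finset.range n, (if rt A (s ^ 8) (s ^ 4) i k ≤ (s : ℝ) ^ 3 then
      min 1 (qt (960 * Y) * qt (∑ j ∈ B n (s ^ 8) k, (A i j) ^ 2)) else 0) ≤
    min 6 (5 * qt (960 * Y) * Real.sqrt (qt (∑ j, (A i j) ^ 2))) := by
  classical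
  have hsR : (4 : ℝ) ≤ s := by exact_mod_cast hs4
  set q : ℝ := qt (960 * Y) with hq
  have hq4 : q ^ 4 = 960 * Y := qt_pow (by linarith)
  have hq0 : 0 ≤ q := qt_nonneg _
  have hqs : q ≤ s := qt_le_of_le_pow (by linarith) hsY
  have hrt0 : ∀ k, 0 ≤ rt A (s ^ 8) (s ^ 4) i k := fun k => rt_nonneg _ _ _ _ _
  have hEr : ∀ k, ∑ j ∈ B n (s ^ 8) k, (A i j) ^ 2 ≤ rt A (s ^ 8) (s ^ 4) i k ^ 4 := by
    intro k
    rw [rt_pow]
    exact block_le_r A (s ^ 8) (s ^ 4) i k
  have hqr : ∀ k, qt (∑ j ∈ B n (s ^ 8) k, (A i j) ^ 2) ≤ rt A (s ^ 8) (s ^ 4) i k :=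
    fun k => qt_le_of_le_pow (hrt0 k) (hEr k)
  refine le_min ?_ ?_
  · refine le_trans (Finset.sum_le_sum fun k _ => ?_) (sum_le_six (s : ℝ) (by linarith)
      (fun k => rt A (s ^ 8) (s ^ 4) i k) hrt0 (fun k => rt_succ A _ s i k) n)
    split_ifs with h
    · refine min_le_min le_rfl (mul_le_mul hqs (hqr k) (qt_nonneg _) (by linarith))
    · exact le_rfl
  · set E : ℝ := ∑ j, (A i j) ^ 2 with hE
    have hE0 : 0 ≤ E := Finset.sum_nonneg fun _ _ => sq_nonneg _
    have hEk : ∀ k, qt (∑ j ∈ B n (s ^ 8) k, (A i j) ^ 2) ≤ qt E := fun k => qt_mono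
      (Finset.sum_le_sum_of_subset_of_nonneg (Finset.subset_univ _) fun _ _ _ => sq_nonneg _)
    rcases le_or_gt E 1 with hE1 | hE1
    · have hqE1 : qt E ≤ 1 := qt_le_of_le_pow zero_le_one (by simpa using hE1)
      have hqE0 : 0 ≤ qt E := qt_nonneg _
      have hss : (2 : ℝ) ≤ Real.sqrt s := Real.le_sqrt_of_sq_le (by norm_num; linarith)
      have hss2 : Real.sqrt (s : ℝ) ^ 2 = s := Real.sq_sqrt (by linarith)
      have h5 := sum_le_five (Real.sqrt (s : ℝ)) hss
        (fun k => Real.sqrt (rt A (s ^ 8) (s ^ 4) i k)) (fun k => Real.sqrt_nonneg _) (fun k => by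
          rw [← Real.sqrt_mul (by linarith)]
          exact Real.sqrt_le_sqrt (rt_succ A _ s i k)) n
      have h6 : ∀ k ∈ Finset.range n, (if rt A (s ^ 8) (s ^ 4) i k ≤ (s : ℝ) ^ 3 then
          min 1 (q * qt (∑ j ∈ B n (s ^ 8) k, (A i j) ^ 2)) else 0) ≤
          (q * Real.sqrt (qt E)) * (if Real.sqrt (rt A (s ^ 8) (s ^ 4) i k) ≤
            Real.sqrt (s : ℝ) ^ 3 then min 1 (Real.sqrt (rt A (s ^ 8) (s ^ 4) i k)) else 0) := by
        intro k _
        have hiff : Real.sqrt (rt A (s ^ 8) (s ^ 4) i k) ≤ Real.sqrt (s : ℝ) ^ 3 ↔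
            rt A (s ^ 8) (s ^ 4) i k ≤ (s : ℝ) ^ 3 := by
          rw [Real.sqrt_le_left (by positivity)]
          have : (Real.sqrt (s : ℝ) ^ 3) ^ 2 = (s : ℝ) ^ 3 := by
            calc (Real.sqrt (s : ℝ) ^ 3) ^ 2 = (Real.sqrt (s : ℝ) ^ 2) ^ 3 := by ring
              _ = _ := by rw [hss2]
          rw [this]
        by_cases h : rt A (s ^ 8) (s ^ 4) i k ≤ (s : ℝ) ^ 3
        · rw [if_pos h, if_pos (hiff.2 h)]
          refine (min_le_right _ _).trans ?_
          rw [mul_assoc]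
          refine mul_le_mul_of_nonneg_left ?_ hq0
          set e := qt (∑ j ∈ B n (s ^ 8) k, (A i j) ^ 2) with he
          have he0 : 0 ≤ e := qt_nonneg _
          have e1 : e ≤ qt E := hEk k
          have e2 : e ≤ rt A (s ^ 8) (s ^ 4) i k := hqr k
          have e3 : e = Real.sqrt e * Real.sqrt e := (Real.mul_self_sqrt he0).symm
          rw [e3]
          refine mul_le_mul (Real.sqrt_le_sqrt e1) (le_min ?_ (Real.sqrt_le_sqrt e2))
            (Real.sqrt_nonneg _) (Real.sqrt_nonneg _)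
          exact Real.sqrt_le_one.2 (e1.trans hqE1)
        · rw [if_neg h, if_neg (fun hh => h (hiff.1 hh)), mul_zero]
      refine (Finset.sum_le_sum h6).trans ?_
      rw [← Finset.mul_sum]
      calc (q * Real.sqrt (qt E)) * _ ≤ (q * Real.sqrt (qt E)) * 5 :=
            mul_le_mul_of_nonneg_left h5 (by positivity)
        _ = _ := by ring
    · -- large energy
      have hq2 : 2 ≤ q := by
        by_contra hcon
        push Not at hcon
        have h3 : q ^ 4 ≤ 2 ^ 4 := pow_le_pow_left₀ hq0 hcon.le 4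
        linarith
      have h7 : 1 ≤ Real.sqrt (qt E) := by
        rw [Real.one_le_sqrt]
        by_contra hcon
        push Not at hcon
        have h3 : qt E ^ 4 < 1 := pow_lt_one₀ (qt_nonneg _) hcon (by norm_num)
        rw [qt_pow hE0] at h3
        linarith
      refine le_trans (le_trans (Finset.sum_le_sum fun k _ => ?_) (sum_le_six (s : ℝ) (by linarith)
        (fun k => rt A (s ^ 8) (s ^ 4) i k) hrt0 (fun k => rt_succ A _ s i k) n)) (?_ : (6:ℝ) ≤ _)
      · split_ifs with h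
        · refine min_le_min le_rfl (mul_le_mul hqs (hqr k) (qt_nonneg _) (by linarith))
        · exact le_rfl
      · nlinarith [mul_le_mul hq2 h7 zero_le_one hq0]

/-- Weighted statement for sorted weights, with abstract parameters. -/
theorem weighted_aux2 (a : I → Fin n → ℝ) (t : ℝ) (ht : 1 ≤ t) (a1 : ∀ i j, |a i j| ≤ 1)
    (hcol : ∀ j, ∑ i, a i j ^ 2 ≤ t) (s : ℕ) (hs4 : 4 ≤ s)
    (Y : ℝ) (hY : 1 ≤ Y) (hsY : 960 * Y ≤ (s : ℝ) ^ 4) (ε : ℝ) (hε0 : 0 < ε) (hε1 : ε ≤ 1)
    (h1 : 16 ≤ ε * s) (h2 : 8 * (s : ℝ) ^ 8 * exp (-Y) ≤ ε)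
    (p : Fin n → ℝ) (hp0 : ∀ j, 0 ≤ p j) (hp : Antitone p) :
    ∃ x : Fin n → ℝ, (∀ j, |x j| ≤ 1) ∧ (∀ i, |∑ j, a i j * x j| ≤ c1 t Y *
        min 6 (5 * qt (960 * Y) * Real.sqrt (qt (∑ j, (a i j / Real.sqrt t) ^ 2)))) ∧
      ∑ j, (if |x j| < 1 then p j else 0) ≤ ε * ∑ j, p j := by
  classical
  have hs : 2 ≤ s := by omega
  set M : ℕ := s ^ 8 with hM
  have hM2 : 2 ≤ M := by
    calc 2 ≤ s := hs
      _ ≤ s ^ 8 := Nat.le_self_pow (by norm_num) s
  choose X hX1 hX2 hX3 using block_k2 a t ht a1 hcol s (by omega) Y hY ε h1 h2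
  have hsR : (2 : ℝ) ≤ s := by exact_mod_cast hs
  let x : Fin n → ℝ := fun j => X (Nat.log M j) j
  have hxB : ∀ k, ∀ j ∈ B n M k, x j = X k j := by
    intro k j hj
    unfold B at hj
    rw [Finset.mem_filter] at hj
    simp only [x]
    rw [hj.2]
  have hmaps : ∀ j ∈ (Finset.univ : Finset (Fin n)), Nat.log M j ∈ Finset.range n := by
    intro j _
    rw [Finset.mem_range]
    exact lt_of_le_of_lt (Nat.log_le_self M j) j.2
  have hfib : ∀ h : Fin n → ℝ, ∑ j, h j = ∑ k ∈ Finset.range n, ∑ j ∈ B n M k, h j := by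
    intro h
    rw [← Finset.sum_fiberwise_of_maps_to hmaps]
    rfl
  refine ⟨x, fun j => hX1 _ j, ?_, ?_⟩
  · intro i
    rw [hfib]
    refine (Finset.abs_sum_le_sum_abs _ _).trans ?_
    set A : I → Fin n → ℝ := fun i j => a i j / Real.sqrt t with hA
    have h3 : ∀ k ∈ Finset.range n, |∑ j ∈ B n M k, a i j * x j| ≤ c1 t Y *
        (if rt A M (s ^ 4) i k ≤ (s : ℝ) ^ 3 then
          min 1 (qt (960 * Y) * qt (∑ j ∈ B n M k, (A i j) ^ 2)) else 0) := by
      intro k _
      have h4 : ∑ j ∈ B n M k, a i j * x j = ∑ j ∈ B n M k, a i j * X k j :=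
        Finset.sum_congr rfl fun j hj => by rw [hxB k j hj]
      rw [h4]
      exact hX2 k i
    refine (Finset.sum_le_sum h3).trans ?_
    rw [← Finset.mul_sum]
    refine mul_le_mul_of_nonneg_left ?_ (c1_nonneg ht)
    exact sum_cost A s hs4 Y hY hsY i
  · -- weights
    have hzero : ∑ j ∈ B n M 0, (if |x j| < 1 then p j else 0) ≤ 0 := by
      have h3 := hX3 0
      have h4 : ((B n M 0).filter (fun j => |X 0 j| < 1)).card = 0 := by
        have h5 : ((((B n M 0).filter (fun j => |X 0 j| < 1)).card : ℕ) : ℝ) < 1 := by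
          refine lt_of_le_of_lt h3 ?_
          rw [pow_zero, one_mul]; linarith
        have h6 : ((B n M 0).filter (fun j => |X 0 j| < 1)).card < 1 := by exact_mod_cast h5
        omega
      rw [Finset.card_eq_zero] at h4
      apply le_of_eq
      refine Finset.sum_eq_zero fun j hj => ?_
      rw [hxB 0 j hj, if_neg]
      intro h5
      have : j ∈ (B n M 0).filter (fun j => |X 0 j| < 1) := Finset.mem_filter.mpr ⟨hj, h5⟩
      rw [h4] at this
      exact absurd this (Finset.notMem_empty j)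
    have hsucc : ∀ k, ∑ j ∈ B n M (k + 1), (if |x j| < 1 then p j else 0)
        ≤ ε * ∑ j ∈ B n M k, p j := by
      intro k
      set PB : ℝ := ∑ j ∈ B n M k, p j with hPB
      have hPB0 : 0 ≤ PB := Finset.sum_nonneg fun j _ => hp0 j
      have hMk : (0 : ℝ) < (M : ℝ) ^ (k + 1) := by
        have : (0 : ℝ) < M := by exact_mod_cast (by omega : 0 < M)
        positivity
      have hpj : ∀ j ∈ B n M (k + 1), p j ≤ 2 / (M : ℝ) ^ (k + 1) * PB := by
        intro j hj
        have h3 := card_B_ge hM2 k j hj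
        have h4 : ((B n M k).card : ℝ) * p j ≤ PB := by
          have h5 := Finset.card_nsmul_le_sum (B n M k) p (p j) (by
            intro i hi
            apply hp
            unfold B at hi hj
            rw [Finset.mem_filter] at hi hj
            have : Nat.log M i < Nat.log M j := by omega
            have h6 : (i : ℕ) < j := by
              by_contra hcon
              push Not at hcon
              have := Nat.log_mono_right (b := M) hcon
              omega
            exact h6.le)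
          rwa [nsmul_eq_mul] at h5
        have h5 : (M : ℝ) ^ (k + 1) / 2 * p j ≤ PB :=
          (mul_le_mul_of_nonneg_right h3 (hp0 j)).trans h4
        rw [div_mul_eq_mul_div, le_div_iff₀ hMk]
        linarith
      have h3 : ∑ j ∈ B n M (k + 1), (if |x j| < 1 then p j else 0)
          = ∑ j ∈ (B n M (k + 1)).filter (fun j => |X (k + 1) j| < 1), p j := by
        rw [Finset.sum_filter]
        refine Finset.sum_congr rfl fun j hj => ?_
        rw [hxB (k + 1) j hj]
      rw [h3]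
      have h4 : ∑ j ∈ (B n M (k + 1)).filter (fun j => |X (k + 1) j| < 1), p j
          ≤ (((B n M (k + 1)).filter (fun j => |X (k + 1) j| < 1)).card : ℝ)
            * (2 / (M : ℝ) ^ (k + 1) * PB) := by
        have := Finset.sum_le_card_nsmul
          ((B n M (k + 1)).filter (fun j => |X (k + 1) j| < 1)) p
          (2 / (M : ℝ) ^ (k + 1) * PB) (fun j hj => hpj j (Finset.mem_filter.mp hj).1)
        rwa [nsmul_eq_mul] at this
      refine h4.trans ?_
      have h5 := hX3 (k + 1)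
      calc _ ≤ ((M : ℝ) ^ (k + 1) * (ε / 2)) * (2 / (M : ℝ) ^ (k + 1) * PB) :=
            mul_le_mul_of_nonneg_right h5 (by positivity)
        _ = ε * PB := by field_simp
    rw [hfib, hfib p]
    cases n with
    | zero => simp
    | succ m =>
      rw [Finset.sum_range_succ', Finset.mul_sum]
      have h3 : ∑ k ∈ Finset.range m, ∑ j ∈ B (m + 1) M (k + 1), (if |x j| < 1 then p j else 0)
          ≤ ∑ k ∈ Finset.range m, ε * ∑ j ∈ B (m + 1) M k, p j :=
        Finset.sum_le_sum fun k _ => hsucc k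
      have h4 : 0 ≤ ε * ∑ j ∈ B (m + 1) M m, p j :=
        mul_nonneg hε0.le (Finset.sum_nonneg fun j _ => hp0 j)
      rw [Finset.sum_range_succ (fun k => ε * ∑ j ∈ B (m + 1) M k, p j)]
      linarith


end weighted

end Q156.Kom
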