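import Pool.Agent.Q156.Kom.Start
import Pool.Agent.H167R2.FKMinimax
import Pool.Agent.Y963.BF.Lin

/-!
# Small traces suffice
-/

set_option autoImplicit false

namespace Q156.Kom

open Finset Real

variable {m n : ℕ}

theorem F_pos {κ L E : ℝ} (hκ : 0 < κ) (hL : 0 < L) (hE : 0 < E) : 0 < F κ L E := by
  unfold F K
  have h1 := qt_pos hL
  have h2 : 0 < Real.sqrt (qt E) := Real.sqrt_pos.2 (qt_pos hE)
  have h3 : 0 < min (qt L) (1 + κ * Real.sqrt L) := lt_min h1 (by positivity)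
  have h4 : 0 < min 1 (qt L * Real.sqrt (qt E)) := lt_min one_pos (mul_pos h1 h2)
  positivity

theorem start_clean {A : Fin m → Fin n → ℝ} {κ : ℝ} (hκ : 0 < κ) (hP : Part A κ) (L : ℝ)
    (hL : 1 ≤ L) (p : Fin n → ℝ) (hp : ∀ j, 0 ≤ p j) (x₀ : Fin n → ℝ) (hx₀ : ∀ j, |x₀ j| ≤ 1) :
    ∃ x : Fin n → ℝ, (∀ j, |x j| ≤ 1) ∧ (∀ j, |x₀ j| = 1 → x j = x₀ j) ∧
      (∀ i, |∑ j, A i j * (x j - x₀ j)| ≤ 7 * F κ L (en A univ i)) ∧
      ∑ j ∈ al x, p j ≤ Real.exp (-L) * ∑ j ∈ al x₀, p j := by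
  classical
  obtain ⟨η, hη0, hη⟩ : ∃ η : ℝ, 0 < η ∧ ∀ i, 0 < en A univ i → η ≤ F κ L (en A univ i) := by
    by_cases hne : (univ.filter (fun i => 0 < en A univ i)).Nonempty
    · obtain ⟨i0, hi0, hmin⟩ := Finset.exists_min_image _ (fun i => F κ L (en A univ i)) hne
      exact ⟨F κ L (en A univ i0), F_pos hκ (by linarith) (mem_filter.1 hi0).2,
        fun i hi => hmin i (mem_filter.2 ⟨mem_univ _, hi⟩)⟩
    · rw [not_nonempty_iff_eq_empty] at hne
      refine ⟨1, one_pos, fun i hi => ?_⟩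
      have : i ∈ univ.filter (fun i => 0 < en A univ i) := mem_filter.2 ⟨mem_univ _, hi⟩
      rw [hne] at this
      exact absurd this (notMem_empty i)
  obtain ⟨x, h1, h2, h3, h4⟩ := start hκ.le hP L hL p hp x₀ hx₀ η hη0
  refine ⟨x, h1, h2, fun i => ?_, h4⟩
  rcases (en_nonneg A univ i).eq_or_lt with h | h
  · have hz : ∀ j, A i j = 0 := by
      intro j
      have h5 := Finset.single_le_sum (f := fun j => A i j ^ 2) (fun j _ => sq_nonneg _)
        (Finset.mem_univ j)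
      have h6 : A i j ^ 2 ≤ 0 := h5.trans h.ge
      exact pow_eq_zero_iff two_ne_zero |>.mp (le_antisymm h6 (sq_nonneg _))
    have h7 : ∑ j, A i j * (x j - x₀ j) = 0 := sum_eq_zero fun j _ => by rw [hz j, zero_mul]
    rw [h7, abs_zero]
    have := F_nonneg (L := L) (E := en A univ i) hκ.le
    positivity
  · have h5 := h3 i
    have h6 : F κ L (en A (al x₀) i) ≤ F κ L (en A univ i) :=
      F_mono hκ.le (en_mono A (subset_univ _) i)
    have h7 := hη i h
    linarith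

/-- Signings of a family whose subfamilies have few heavy rows. -/
theorem hall_trace (a : Fin m → Fin n → ℝ) (T : Fin m → ℝ) (hT : ∀ i, 0 ≤ T i)
    (X : Finset (Fin n))
    (hloc : ∀ Y : Finset (Fin n), Y.Nonempty → Y ⊆ X →
      (univ.filter (fun i => T i < ∑ j ∈ Y, |a i j|)).card < Y.card) :
    ∃ e : Fin n → ℝ, (∀ j, e j = 1 ∨ e j = -1) ∧ ∀ i, |∑ j ∈ X, a i j * e j| ≤ T i := by
  classical
  obtain ⟨x, hx⟩ := H294BF.hall_signing
    (fun i j => if j ∈ X then a i j else 0) T hT (by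
      intro S hS
      have hsum : ∀ i, ∑ j ∈ S, |if j ∈ X then a i j else 0| = ∑ j ∈ S ∩ X, |a i j| := by
        intro i
        rw [← Finset.sum_filter_add_sum_filter_not S (fun j => j ∈ X)]
        rw [Finset.filter_mem_eq_inter]
        have e1 : ∑ j ∈ S.filter (fun j => j ∉ X), |if j ∈ X then a i j else 0| = 0 := by
          apply sum_eq_zero
          intro j hj
          rw [if_neg (mem_filter.1 hj).2, abs_zero]
        rw [e1, add_zero]
        exact sum_congr rfl fun j hj => by rw [if_pos (mem_inter.1 hj).2]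
      simp only [hsum]
      rcases (S ∩ X).eq_empty_or_nonempty with h0 | h0
      · rw [h0]
        have : univ.filter (fun i => T i < ∑ j ∈ (∅ : Finset (Fin n)), |a i j|) = ∅ := by
          apply filter_eq_empty_iff.2
          intro i _
          rw [sum_empty]
          exact not_lt.2 (hT i)
        rw [this, card_empty]
        exact card_pos.2 hS
      · exact (hloc (S ∩ X) h0 inter_subset_right).trans_le (card_le_card inter_subset_left))
  refine ⟨fun j => Pool.Agent.Y963.BF.Lin.sg (x j), fun j => Pool.Agent.Y963.BF.Lin.sg_or _,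
    fun i => ?_⟩
  have h1 := hx i
  have e1 : H294BF.row (fun i j => if j ∈ X then a i j else 0) x i =
      ∑ j ∈ X, a i j * Pool.Agent.Y963.BF.Lin.sg (x j) := by
    unfold H294BF.row Pool.Agent.Y963.BF.Lin.sg
    simp only [ite_mul, zero_mul]
    rw [← Finset.sum_filter]
    refine Finset.sum_congr (by ext j; simp) fun j _ => ?_
    rfl
  rwa [e1] at h1

/-- **Small traces suffice.** -/
theorem small_traces {A : Fin m → Fin n → ℝ} {κ : ℝ} (hκ : 0 < κ) (hP : Part A κ) (L : ℝ)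
    (hL : 1 ≤ L) (p : Fin n → ℝ) (hp : ∀ j, 0 ≤ p j) (x₀ : Fin n → ℝ) (hx₀ : ∀ j, |x₀ j| ≤ 1)
    (ε : ℝ) (hε : Real.exp (-L) ≤ ε) (B : Fin m → ℝ)
    (hsm : ∀ X : Finset (Fin n), ∑ j ∈ X, p j ≤ ε * ∑ j, p j →
      ∃ e : Fin n → ℝ, (∀ j, e j = 1 ∨ e j = -1) ∧ ∀ i, |∑ j ∈ X, A i j * e j| ≤ B i) :
    ∃ χ : Fin n → ℝ, (∀ j, χ j = 1 ∨ χ j = -1) ∧
      ∀ i, |∑ j, A i j * (χ j - x₀ j)| ≤ 7 * F κ L (en A univ i) + 2 * B i := by
  classical
  have hε0 : 0 < ε := lt_of_lt_of_le (Real.exp_pos _) hε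
  have hB : ∀ i, 0 ≤ B i := by
    intro i
    obtain ⟨e, -, he⟩ := hsm ∅ (by
      rw [sum_empty]
      exact mul_nonneg hε0.le (sum_nonneg fun j _ => hp j))
    have := he i
    rw [sum_empty, abs_zero] at this
    exact this
  obtain ⟨x, hx1, hx2, hx3, hx4⟩ := start_clean hκ hP L hL p hp x₀ hx₀
  have hsub : ∑ j ∈ al x₀, p j ≤ ∑ j, p j :=
    Finset.sum_le_sum_of_subset_of_nonneg (subset_univ _) fun j _ _ => hp j
  have hs0 : 0 ≤ ∑ j ∈ al x₀, p j := sum_nonneg fun j _ => hp j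
  obtain ⟨χ, h1, h2⟩ := Pool.Agent.Y963.BF.Lin.lin A B hB (al x) (by
    intro X hX
    refine hsm X ?_
    calc ∑ j ∈ X, p j ≤ ∑ j ∈ al x, p j :=
          Finset.sum_le_sum_of_subset_of_nonneg hX fun j _ _ => hp j
      _ ≤ Real.exp (-L) * ∑ j ∈ al x₀, p j := hx4
      _ ≤ ε * ∑ j, p j := mul_le_mul hε hsub hs0 hε0.le) x hx1 (by
    intro j hj
    rw [mem_al] at hj
    exact le_antisymm (hx1 j) (not_lt.1 hj))
  refine ⟨χ, h1, fun i => ?_⟩
  have e : ∑ j, A i j * (χ j - x₀ j) = ∑ j, A i j * (x j - x₀ j) + ∑ j, A i j * (χ j - x j) := by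
    rw [← Finset.sum_add_distrib]
    exact sum_congr rfl fun j _ => by ring
  rw [e]
  exact (abs_add_le _ _).trans (add_le_add (hx3 i) (h2 i))

/-- From weighted statements to distributions. -/
theorem dist_of (good : (Fin n → ℝ) → Prop) (ε : ℝ)
    (h : ∀ p : Fin n → ℝ, (∀ j, 0 ≤ p j) → ∃ x : Fin n → ℝ, good x ∧
      ∑ j ∈ al x, p j ≤ ε * ∑ j, p j) :
    ∃ (M : ℕ) (w : Fin M → ℝ) (y : Fin M → Fin n → ℝ),
      (∀ r, 0 ≤ w r) ∧ ∑ r, w r = 1 ∧ (∀ r, good (y r)) ∧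
      ∀ j, ∑ r ∈ univ.filter (fun r => |y r j| < 1), w r ≤ ε := by
  classical
  let pat : (Fin n → ℝ) → (Fin n → ℝ) := fun x j => if j ∈ al x then 1 else 0
  have hfin : (Set.range (fun U : Finset (Fin n) => fun j : Fin n =>
      if j ∈ U then (1 : ℝ) else 0)).Finite := Set.finite_range _
  have hpatfin : (pat '' {x | good x}).Finite := by
    refine hfin.subset ?_
    rintro z ⟨x, -, rfl⟩
    exact ⟨al x, rfl⟩
  set Z : Finset (Fin n → ℝ) := hpatfin.toFinset with hZ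
  have hZmem : ∀ z ∈ Z, ∃ x, good x ∧ pat x = z := by
    intro z hz
    rw [hZ, Set.Finite.mem_toFinset] at hz
    exact hz
  obtain ⟨w, hw0, hw1, hw2⟩ := H167FK.minimax Z ε (by
    intro p hp
    obtain ⟨x, hx1, hx2⟩ := h p hp
    refine ⟨pat x, ?_, ?_⟩
    · rw [hZ, Set.Finite.mem_toFinset]
      exact ⟨x, hx1, rfl⟩
    · refine le_trans (le_of_eq ?_) hx2
      simp only [pat, mul_ite, mul_one, mul_zero]
      rw [Finset.sum_ite_mem, Finset.univ_inter])
  choose! x hx hxp using hZmem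
  let e : Fin Z.card ≃ Z := Z.equivFin.symm
  refine ⟨Z.card, fun k => w (e k), fun k => x (e k), fun k => hw0 _ (e k).2, ?_,
    fun k => hx _ (e k).2, fun j => ?_⟩
  · rw [Equiv.sum_comp e (fun z : Z => w z), Finset.sum_coe_sort Z w]
    exact hw1
  · refine le_trans (le_of_eq ?_) (hw2 j)
    rw [Finset.sum_filter, ← Finset.sum_coe_sort Z (fun z => w z * z j),
      ← Equiv.sum_comp e (fun z : Z => w z * (z : Fin n → ℝ) j)]
    refine Finset.sum_congr rfl fun k _ => ?_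
    have h2 := hxp _ (e k).2
    have h3 : ((e k : Z) : Fin n → ℝ) j = if |x (e k) j| < 1 then 1 else 0 := by
      conv_lhs => rw [← h2]
      simp only [pat, mem_al]
    rw [h3]
    by_cases h6 : |x (e k) j| < 1
    · rw [if_pos h6, if_pos h6, mul_one]
    · rw [if_neg h6, if_neg h6, mul_zero]

end Q156.Kom
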