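import Pool.Agent.Q156.Kom.Start

/-!
# Stages with geometrically growing logarithms
-/

set_option autoImplicit false

namespace Q156.Kom

open Finset Real

variable {m n : ℕ}

theorem stages {A : Fin m → Fin n → ℝ} {κ : ℝ} (hκ : 0 ≤ κ) (hP : Part A κ) (Ls : ℕ → ℝ)
    (hLs : ∀ k, 1 ≤ Ls k) (P : ℕ → Fin n → ℝ) (hPn : ∀ k j, 0 ≤ P k j) (η : ℝ) (hη : 0 < η) :
    ∃ xs : ℕ → Fin n → ℝ, (∀ j, xs 0 j = 0) ∧ (∀ k j, |xs k j| ≤ 1) ∧
      (∀ k j, |xs k j| = 1 → xs (k + 1) j = xs k j) ∧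
      (∀ k i, |∑ j, A i j * (xs (k + 1) j - xs k j)| ≤ 6 * F κ (Ls k) (en A (al (xs k)) i) + η) ∧
      ∀ k, ∑ j ∈ al (xs (k + 1)), P k j ≤ Real.exp (-Ls k) * ∑ j ∈ al (xs k), P k j := by
  classical
  have h : ∀ (k : ℕ) (x₀ : {x : Fin n → ℝ // ∀ j, |x j| ≤ 1}),
      ∃ x : {x : Fin n → ℝ // ∀ j, |x j| ≤ 1}, (∀ j, |x₀.1 j| = 1 → x.1 j = x₀.1 j) ∧
      (∀ i, |∑ j, A i j * (x.1 j - x₀.1 j)| ≤ 6 * F κ (Ls k) (en A (al x₀.1) i) + η) ∧
      ∑ j ∈ al x.1, P k j ≤ Real.exp (-Ls k) * ∑ j ∈ al x₀.1, P k j := by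
    intro k x₀
    obtain ⟨x, h1, h2, h3, h4⟩ := start hκ hP (Ls k) (hLs k) (P k) (hPn k) x₀.1 x₀.2 η hη
    exact ⟨⟨x, h1⟩, h2, h3, h4⟩
  choose f hf1 hf2 hf3 using h
  let g : ℕ → {x : Fin n → ℝ // ∀ j, |x j| ≤ 1} := fun k =>
    Nat.rec ⟨fun _ => 0, fun j => by simp⟩ (fun k x => f k x) k
  exact ⟨fun k => (g k).1, fun j => rfl, fun k j => (g k).2 j, fun k j => hf1 k (g k) j,
    fun k i => hf2 k (g k) i, fun k => hf3 k (g k)⟩

/-- Sum of the costs of the first stages. -/
theorem sum_K {κ L0 : ℝ} (hκ : 0 ≤ κ) (hL0 : 1 ≤ L0) (hκL : 1 ≤ κ * Real.sqrt L0) (k : ℕ) :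
    ∑ l ∈ range (k + 1), K κ (L0 * 4 ^ l) ≤ 4 * K κ (L0 * 4 ^ k) := by
  have h4 : ∀ l : ℕ, Real.sqrt (L0 * 4 ^ (l + 1)) = 2 * Real.sqrt (L0 * 4 ^ l) := by
    intro l
    rw [pow_succ, show L0 * (4 ^ l * 4) = 2 ^ 2 * (L0 * 4 ^ l) by ring,
      Real.sqrt_mul (by norm_num), Real.sqrt_sq (by norm_num)]
  have hpos : ∀ l : ℕ, 0 < L0 * 4 ^ l := fun l => by positivity
  -- first form
  have h1 : ∀ k : ℕ, ∑ l ∈ range (k + 1), qt (L0 * 4 ^ l) ≤ 4 * qt (L0 * 4 ^ k) := by
    intro k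
    induction k with
    | zero =>
      simp only [zero_add, range_one, sum_singleton, pow_zero, mul_one]
      have := qt_nonneg L0
      linarith
    | succ k ih =>
      rw [Finset.sum_range_succ]
      have h5 : 7 / 5 * qt (L0 * 4 ^ k) ≤ qt (L0 * 4 ^ (k + 1)) := by
        unfold qt
        rw [h4]
        generalize Real.sqrt (L0 * 4 ^ k) = z
        rw [Real.sqrt_mul (by norm_num : (0:ℝ) ≤ 2)]
        apply mul_le_mul_of_nonneg_right _ (Real.sqrt_nonneg _)
        apply Real.le_sqrt_of_sq_le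
        norm_num
      have := qt_nonneg (L0 * 4 ^ k)
      linarith
  have h2 : ∀ k : ℕ, ∑ l ∈ range (k + 1), (1 + κ * Real.sqrt (L0 * 4 ^ l)) ≤
      4 * (κ * Real.sqrt (L0 * 4 ^ k)) := by
    intro k
    have hge : ∀ k : ℕ, 1 ≤ κ * Real.sqrt (L0 * 4 ^ k) := by
      intro k
      refine hκL.trans (mul_le_mul_of_nonneg_left (Real.sqrt_le_sqrt ?_) hκ)
      have : (1 : ℝ) ≤ 4 ^ k := one_le_pow₀ (by norm_num)
      nlinarith
    induction k with
    | zero =>
      simp only [zero_add, range_one, sum_singleton, pow_zero, mul_one]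
      have := hge 0
      rw [pow_zero, mul_one] at this
      linarith
    | succ k ih =>
      rw [Finset.sum_range_succ]
      have h5 := hge (k + 1)
      rw [h4] at h5 ⊢
      nlinarith
  unfold K
  rw [mul_min_of_nonneg _ _ (by norm_num)]
  refine le_min ?_ ?_
  · exact (Finset.sum_le_sum fun l _ => min_le_left _ _).trans (h1 k)
  · refine (Finset.sum_le_sum fun l _ => min_le_right _ _).trans ((h2 k).trans ?_)
    have : 0 ≤ κ * Real.sqrt (L0 * 4 ^ k) := by positivity
    linarith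

/-- The cost of a late stage on a row of small energy. -/
theorem late {κ L0 E : ℝ} (_hκ : 0 ≤ κ) (hL0 : 1 ≤ L0) (l : ℕ)
    (hE : E ≤ Real.exp (-(L0 * 4 ^ l) / 2)) :
    F κ (L0 * 4 ^ (l + 1)) E ≤ 35250000 * (24 / 2 ^ (l + 1)) := by
  set y : ℝ := L0 * 4 ^ l with hy
  have h4l : (1 : ℝ) ≤ 4 ^ l := one_le_pow₀ (by norm_num)
  have hy1 : 4 ^ l ≤ y := by
    rw [hy]; nlinarith
  have hy0 : 0 < y := by linarith
  have hLy : L0 * 4 ^ (l + 1) = 2 ^ 2 * y := by rw [hy, pow_succ]; ring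
  have hK : K κ (L0 * 4 ^ (l + 1)) ≤ qt (2 ^ 2 * y) := by
    rw [hLy]; exact min_le_left _ _
  have hq2 : qt (2 ^ 2 * y) * qt (2 ^ 2 * y) = 2 * Real.sqrt y := by
    unfold qt
    rw [Real.mul_self_sqrt (Real.sqrt_nonneg _), Real.sqrt_mul (by norm_num),
      Real.sqrt_sq (by norm_num)]
  have hqE : Real.sqrt (qt E) ≤ Real.exp (-y / 16) := by
    have h1 : qt E ≤ qt (Real.exp (-y / 2)) := qt_mono hE
    have h2 : qt (Real.exp (-y / 2)) = Real.exp (-y / 8) := by
      unfold qt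
      rw [← Real.exp_half, ← Real.exp_half]
      congr 1
      ring
    rw [h2] at h1
    have h3 := Real.sqrt_le_sqrt h1
    rw [← Real.exp_half] at h3
    have : -y / 8 / 2 = -y / 16 := by ring
    rwa [this] at h3
  have hexp : Real.exp (-y / 16) ≤ 6 / y := by
    have h1 : Real.exp (-y / 16) = (Real.exp (y / 16))⁻¹ := by
      rw [← Real.exp_neg]; congr 1; ring
    rw [h1, inv_le_comm₀ (Real.exp_pos _) (by positivity), inv_div]
    have h2 : y / 16 * 2.71 ≤ Real.exp (y / 16) := by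
      have h3 := Real.add_one_le_exp (y / 16 - 1)
      have h4 : Real.exp (y / 16) = Real.exp (y / 16 - 1) * Real.exp 1 := by
        rw [← Real.exp_add]; congr 1; ring
      rw [h4]
      have h5 := Real.exp_one_gt_d9
      have h6 : y / 16 ≤ Real.exp (y / 16 - 1) := by linarith
      nlinarith [Real.exp_pos (y / 16 - 1)]
    linarith
  have hs : Real.sqrt y * (1 / y) = 1 / Real.sqrt y := by
    have h1 : Real.sqrt y ≠ 0 := (Real.sqrt_pos.2 hy0).ne'
    field_simp
    rw [Real.sq_sqrt hy0.le]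
  have hsy : 1 / Real.sqrt y ≤ 1 / 2 ^ l := by
    apply one_div_le_one_div_of_le (by positivity)
    apply Real.le_sqrt_of_sq_le
    rw [← pow_mul, mul_comm l 2, pow_mul]
    norm_num
    exact hy1
  have hqn : 0 ≤ qt (2 ^ 2 * y) := qt_nonneg _
  unfold F
  rw [hLy] at hK ⊢
  calc 35250000 * K κ (2 ^ 2 * y) * min 1 (qt (2 ^ 2 * y) * Real.sqrt (qt E))
      ≤ 35250000 * qt (2 ^ 2 * y) * (qt (2 ^ 2 * y) * Real.exp (-y / 16)) := by
        refine mul_le_mul (by linarith) ((min_le_right _ _).trans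
          (mul_le_mul_of_nonneg_left hqE hqn)) (le_min zero_le_one
            (mul_nonneg hqn (Real.sqrt_nonneg _))) (by positivity)
    _ = 35250000 * ((qt (2 ^ 2 * y) * qt (2 ^ 2 * y)) * Real.exp (-y / 16)) := by ring
    _ ≤ 35250000 * ((2 * Real.sqrt y) * (6 / y)) := by
        rw [hq2]
        gcongr
    _ = 35250000 * (12 * (Real.sqrt y * (1 / y))) := by ring
    _ ≤ 35250000 * (12 * (1 / 2 ^ l)) := by
        rw [hs]
        gcongr
    _ = 35250000 * (24 / 2 ^ (l + 1)) := by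
        rw [pow_succ]
        field_simp
        ring

/-- A signing with few bad pairs. -/
theorem signing {A : Fin m → Fin n → ℝ} {κ : ℝ} (hκ : 0 ≤ κ) (hP : Part A κ) (L0 : ℝ)
    (hL0 : 1 ≤ L0) (hκL : 1 ≤ κ * Real.sqrt L0) (N : ℕ) (hN : (n : ℝ) < Real.exp (L0 * 4 ^ N))
    (q : Fin m → Fin N → ℝ) (hq : ∀ i k, 0 ≤ q i k) :
    ∃ (x : Fin n → ℝ) (Bad : Finset (Fin m × Fin N)), (∀ j, x j = 1 ∨ x j = -1) ∧
      (∀ (i : Fin m) (k : ℕ), (∀ k' : Fin N, k ≤ k' → (i, k') ∉ Bad) →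
        |∑ j, A i j * x j| ≤ 12000000000 * K κ (L0 * 4 ^ k)) ∧
      ∑ z ∈ Bad, q z.1 z.2 ≤
        ∑ z : Fin m × Fin N, q z.1 z.2 * (Real.exp (-(L0 * 4 ^ (z.2 : ℕ)) / 2) *
          en A univ z.1) := by
  classical
  set Ls : ℕ → ℝ := fun k => L0 * 4 ^ k with hLs
  have hLs1 : ∀ k, 1 ≤ Ls k := by
    intro k
    have : (1 : ℝ) ≤ 4 ^ k := one_le_pow₀ (by norm_num)
    simp only [hLs]
    nlinarith
  set P : ℕ → Fin n → ℝ := fun k j => if h : k < N then ∑ i, q i ⟨k, h⟩ * A i j ^ 2 else 1 with hPd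
  have hPn : ∀ k j, 0 ≤ P k j := by
    intro k j
    simp only [hPd]
    split_ifs with h
    · exact sum_nonneg fun i _ => mul_nonneg (hq _ _) (sq_nonneg _)
    · exact zero_le_one
  have hη : (0 : ℝ) < 1 / (N + 1) := by positivity
  obtain ⟨xs, h0, h1, h2, h3, h4⟩ := stages hκ hP Ls hLs1 P hPn (1 / (N + 1)) hη
  set Bad : Finset (Fin m × Fin N) := univ.filter (fun z =>
    Real.exp (-Ls z.2 / 2) < en A (al (xs (z.2 + 1))) z.1) with hBad
  have hal : al (xs (N + 1)) = ∅ := by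
    have h5 := h4 N
    have e1 : ∀ j, P N j = 1 := by intro j; simp [hPd]
    simp only [e1, sum_const, nsmul_eq_mul, mul_one] at h5
    have h6 : ((al (xs N)).card : ℝ) ≤ n := by
      have : (al (xs N)).card ≤ n := by simpa using Finset.card_le_univ (al (xs N))
      exact_mod_cast this
    have h7 : Real.exp (-Ls N) * ((al (xs N)).card : ℝ) < 1 := by
      calc Real.exp (-Ls N) * ((al (xs N)).card : ℝ) ≤ Real.exp (-Ls N) * n :=
            mul_le_mul_of_nonneg_left h6 (Real.exp_pos _).le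
        _ < Real.exp (-Ls N) * Real.exp (Ls N) := mul_lt_mul_of_pos_left hN (Real.exp_pos _)
        _ = 1 := by rw [← Real.exp_add, neg_add_cancel, Real.exp_zero]
    have h8 : ((al (xs (N + 1))).card : ℝ) < 1 := lt_of_le_of_lt h5 h7
    have h9 : (al (xs (N + 1))).card < 1 := by exact_mod_cast h8
    exact Finset.card_eq_zero.1 (by omega)
  refine ⟨xs (N + 1), Bad, fun j => ?_, fun i k hk => ?_, ?_⟩
  · have hj : j ∉ al (xs (N + 1)) := by rw [hal]; exact notMem_empty j
    rw [mem_al, not_lt] at hj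
    exact eq_or_eq_neg_of_abs_eq (le_antisymm (h1 _ j) hj)
  · -- telescope
    have hanti : ∀ l, al (xs (l + 1)) ⊆ al (xs l) := by
      intro l j hj
      rw [mem_al] at hj ⊢
      refine lt_of_le_of_ne (h1 l j) fun h => ?_
      rw [h2 l j h, h] at hj
      exact lt_irrefl _ hj
    have htel : ∑ j, A i j * xs (N + 1) j =
        ∑ l ∈ range (N + 1), ∑ j, A i j * (xs (l + 1) j - xs l j) := by
      rw [Finset.sum_comm]
      refine sum_congr rfl fun j _ => ?_
      rw [← Finset.mul_sum, Finset.sum_range_sub (fun l => xs l j), h0, sub_zero]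
    have hl : ∀ l ∈ range (N + 1), |∑ j, A i j * (xs (l + 1) j - xs l j)| ≤
        6 * (35250000 * ((if l ≤ k then K κ (Ls l) else 0) + 24 / 2 ^ l)) + 1 / (N + 1) := by
      intro l hl
      rw [mem_range] at hl
      refine (h3 l i).trans (add_le_add_left (mul_le_mul_of_nonneg_left ?_ (by norm_num)) _)
      by_cases hlk : l ≤ k
      · rw [if_pos hlk]
        refine (F_le_K hκ).trans ?_
        have : (0 : ℝ) ≤ 24 / 2 ^ l := by positivity
        linarith
      · rw [if_neg hlk, zero_add]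
        obtain ⟨l', rfl⟩ : ∃ l', l = l' + 1 := ⟨l - 1, by omega⟩
        refine late hκ hL0 l' ?_
        have hl'N : l' < N := by omega
        have h5 := hk ⟨l', hl'N⟩ (by simp only; omega)
        rw [hBad, mem_filter, not_and, not_lt] at h5
        exact h5 (mem_univ _)
    rw [htel]
    refine (abs_sum_le_sum_abs _ _).trans ((sum_le_sum hl).trans ?_)
    rw [Finset.sum_add_distrib, ← Finset.mul_sum, ← Finset.mul_sum, Finset.sum_add_distrib,
      Finset.sum_const, card_range, nsmul_eq_mul]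
    have e1 : ((N + 1 : ℕ) : ℝ) * (1 / (N + 1)) = 1 := by
      push_cast
      field_simp
    rw [e1]
    have e2 : ∑ l ∈ range (N + 1), (if l ≤ k then K κ (Ls l) else 0) ≤ 4 * K κ (Ls k) := by
      refine le_trans ?_ (sum_K hκ hL0 hκL k)
      rw [← Finset.sum_filter]
      refine Finset.sum_le_sum_of_subset_of_nonneg ?_ fun l _ _ => K_nonneg hκ
      intro l hl
      rw [mem_filter] at hl
      rw [mem_range]
      omega
    have e3 : ∑ l ∈ range (N + 1), (24 : ℝ) / 2 ^ l ≤ 48 := by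
      have h5 : ∀ M : ℕ, ∑ l ∈ range M, (24 : ℝ) / 2 ^ l = 48 - 48 / 2 ^ M := by
        intro M
        induction M with
        | zero => norm_num
        | succ M ih =>
          rw [Finset.sum_range_succ, ih, pow_succ]
          field_simp
          ring
      rw [h5]
      have : (0 : ℝ) < 48 / 2 ^ (N + 1) := by positivity
      linarith
    have e4 := one_le_K hκ (hLs1 k)
    nlinarith
  · -- counting
    have hk : ∀ k : Fin N, ∑ i, (if Real.exp (-Ls k / 2) < en A (al (xs (k + 1))) i then q i k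
        else 0) ≤ ∑ i, q i k * (Real.exp (-Ls k / 2) * en A univ i) := by
      intro k
      set β : ℝ := Real.exp (-Ls k / 2) with hβ
      have hβ0 : 0 < β := Real.exp_pos _
      have hPk : ∀ j, P k j = ∑ i, q i k * A i j ^ 2 := by
        intro j
        simp only [hPd, dif_pos k.2]
      have h5 : ∑ i, q i k * en A (al (xs (k + 1))) i = ∑ j ∈ al (xs (k + 1)), P k j := by
        simp only [hPk, en, Finset.mul_sum]
        rw [Finset.sum_comm]
      have h6 : ∑ j ∈ al (xs k), P k j ≤ ∑ i, q i k * en A univ i := by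
        have e1 : ∑ i, q i k * en A univ i = ∑ j, P k j := by
          simp only [hPk, en, Finset.mul_sum]
          rw [Finset.sum_comm]
        rw [e1]
        exact sum_le_sum_of_subset_of_nonneg (subset_univ _) fun j _ _ => hPn _ j
      have h7 : Real.exp (-Ls k) = β * β := by
        rw [hβ, ← Real.exp_add]; congr 1; ring
      have h8 : β * ∑ i, (if β < en A (al (xs (k + 1))) i then q i k else 0) ≤
          ∑ i, q i k * en A (al (xs (k + 1))) i := by
        rw [Finset.mul_sum]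
        refine sum_le_sum fun i _ => ?_
        split_ifs with h
        · rw [mul_comm]
          exact mul_le_mul_of_nonneg_left h.le (hq i k)
        · rw [mul_zero]
          exact mul_nonneg (hq i k) (en_nonneg A _ i)
      have h9 : β * ∑ i, (if β < en A (al (xs (k + 1))) i then q i k else 0) ≤
          β * (β * ∑ i, q i k * en A univ i) := by
        calc _ ≤ ∑ j ∈ al (xs (k + 1)), P k j := h8.trans h5.le
          _ ≤ Real.exp (-Ls k) * ∑ j ∈ al (xs k), P k j := h4 k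
          _ ≤ Real.exp (-Ls k) * ∑ i, q i k * en A univ i :=
              mul_le_mul_of_nonneg_left h6 (Real.exp_pos _).le
          _ = _ := by rw [h7, mul_assoc]
      have h10 := le_of_mul_le_mul_left h9 hβ0
      refine h10.trans (le_of_eq ?_)
      rw [Finset.mul_sum]
      exact sum_congr rfl fun i _ => by ring
    rw [hBad, Finset.sum_filter, Fintype.sum_prod_type_right, Fintype.sum_prod_type_right]
    exact sum_le_sum fun k _ => hk k

end Q156.Kom
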