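import Pool.Agent.Q156.Kom.Weighted

/-!
# Partial signings from an arbitrary starting point, and sequences of stages
-/

set_option autoImplicit false

namespace Q156.Kom

open Finset Real

variable {m n : ℕ}

/-- Coordinates that are not yet signs. -/
noncomputable def al (x : Fin n → ℝ) : Finset (Fin n) := univ.filter (fun j => |x j| < 1)

theorem mem_al {x : Fin n → ℝ} {j : Fin n} : j ∈ al x ↔ |x j| < 1 := by
  unfold al; simp

/-- Energy of a row on a set. -/
noncomputable def en (A : Fin m → Fin n → ℝ) (X : Finset (Fin n)) (i : Fin m) : ℝ :=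
  ∑ j ∈ X, A i j ^ 2

theorem en_nonneg (A : Fin m → Fin n → ℝ) (X : Finset (Fin n)) (i : Fin m) : 0 ≤ en A X i :=
  sum_nonneg fun _ _ => sq_nonneg _

theorem en_mono (A : Fin m → Fin n → ℝ) {X Y : Finset (Fin n)} (h : X ⊆ Y) (i : Fin m) :
    en A X i ≤ en A Y i :=
  sum_le_sum_of_subset_of_nonneg h fun _ _ _ => sq_nonneg _

/-- Rounding of dyadic points. -/
theorem dyadic {A : Fin m → Fin n → ℝ} {κ : ℝ} (hκ : 0 ≤ κ) (hP : Part A κ) (L : ℝ)
    (hL : 1 ≤ L) (p : Fin n → ℝ) (hp : ∀ j, 0 ≤ p j) :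
    ∀ (k : ℕ) (y : Fin n → ℝ) (Fs : Finset (Fin n)),
      (∀ j ∈ Fs, ∃ c : ℤ, 0 ≤ c ∧ c ≤ 2 ^ k ∧ y j = -1 + 2 * c / 2 ^ k) →
      ∃ x : Fin n → ℝ, (∀ j, j ∉ Fs → x j = y j) ∧ (∀ j ∈ Fs, |x j| ≤ 1) ∧
        (∀ i, |∑ j, A i j * (x j - y j)| ≤ (6 - 2 * (k + 3) / 2 ^ k) * F κ L (en A Fs i)) ∧
        ∑ j ∈ Fs, (if |x j| < 1 then p j else 0) ≤
          (1 - 1 / 2 ^ k) * (Real.exp (-L) * ∑ j ∈ Fs, p j) := by
  classical
  intro k
  induction k with
  | zero =>
    intro y Fs hc
    have hy : ∀ j ∈ Fs, |y j| = 1 := by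
      intro j hj
      obtain ⟨c, c0, c1, c2⟩ := hc j hj
      have : c = 0 ∨ c = 1 := by
        rw [pow_zero] at c1
        omega
      rcases this with rfl | rfl
      · rw [c2]; norm_num
      · rw [c2]; norm_num
    refine ⟨y, fun j _ => rfl, fun j hj => (hy j hj).le, fun i => ?_, ?_⟩
    · simp only [sub_self, mul_zero, sum_const_zero, abs_zero, pow_zero, div_one]
      norm_num
    · rw [Finset.sum_eq_zero fun j hj => by rw [if_neg (by rw [hy j hj]; exact lt_irrefl _)]]
      norm_num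
  | succ k ih =>
    intro y Fs hc
    choose! c c0 c1 c2 using hc
    have hk0 : (0 : ℝ) < 2 ^ k := by positivity
    have hpk : (2 : ℝ) ^ (k + 1) = 2 * 2 ^ k := by ring
    have hpz : (2 : ℤ) ^ (k + 1) = 2 * 2 ^ k := by ring
    set X := Fs.filter (fun j => Odd (c j)) with hX
    have hXF : X ⊆ Fs := filter_subset _ _
    set L' : ℝ := L + (k + 1) * Real.log 2 with hL'
    have hlog2 : 0 < Real.log 2 := Real.log_pos (by norm_num)
    have hlog21 : Real.log 2 ≤ 1 := by
      have := Real.log_two_lt_d9; linarith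
    have hL'1 : 1 ≤ L' := by
      have : 0 ≤ ((k : ℝ) + 1) * Real.log 2 := by positivity
      linarith
    have hexp : Real.exp (-L') = Real.exp (-L) * (1 / 2 ^ (k + 1)) := by
      rw [hL', neg_add, Real.exp_add]
      congr 1
      have e1 : -(((k : ℝ) + 1) * Real.log 2) = ((k + 1 : ℕ) : ℝ) * (-Real.log 2) := by
        push_cast; ring
      rw [e1, Real.exp_nat_mul, Real.exp_neg, Real.exp_log (by norm_num), inv_pow, one_div]
    obtain ⟨e, he1, he2, he3⟩ := hP X L' hL'1 p hp
    set y' : Fin n → ℝ := fun j => if j ∈ X then y j + e j / 2 ^ k else y j with hy'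
    set Fs' := Fs.filter (fun j => ¬ (j ∈ X ∧ |e j| < 1)) with hFs'
    have hF'F : Fs' ⊆ Fs := filter_subset _ _
    obtain ⟨x, hx1, hx2, hx3, hx4⟩ := ih y' Fs' (by
      intro j hj
      have hjF : j ∈ Fs := hF'F hj
      have hj2 := (mem_filter.1 hj).2
      have d0 := c0 j hjF
      have d1 := c1 j hjF
      have d2 := c2 j hjF
      rw [hpz] at d1
      rw [hpk] at d2
      by_cases hjX : j ∈ X
      · obtain ⟨r, hr⟩ := (mem_filter.1 hjX).2
        have hej : |e j| = 1 := by
          refine le_antisymm (he1 j) ?_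
          by_contra hcon
          exact hj2 ⟨hjX, not_le.1 hcon⟩
        simp only [hy', if_pos hjX]
        rcases eq_or_eq_neg_of_abs_eq hej with he | he
        · refine ⟨r + 1, by omega, by omega, ?_⟩
          rw [d2, he, hr]
          push_cast
          field_simp
          ring
        · refine ⟨r, by omega, by omega, ?_⟩
          rw [d2, he, hr]
          push_cast
          field_simp
          ring
      · have hev : Even (c j) := by
          rw [← Int.not_odd_iff_even]
          intro hodd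
          exact hjX (mem_filter.2 ⟨hjF, hodd⟩)
        obtain ⟨r, hr⟩ := hev
        simp only [hy', if_neg hjX]
        refine ⟨r, by omega, by omega, ?_⟩
        rw [d2, hr]
        push_cast
        field_simp
        ring)
    have hxX : ∀ j ∈ Fs, j ∉ Fs' → x j = y j + e j / 2 ^ k ∧ j ∈ X ∧ |e j| < 1 := by
      intro j hj hj'
      have h1 : j ∈ X ∧ |e j| < 1 := by
        by_contra hcon
        exact hj' (mem_filter.2 ⟨hj, hcon⟩)
      rw [hx1 j hj']
      simp only [hy', if_pos h1.1]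
      exact ⟨trivial, h1⟩
    refine ⟨x, fun j hj => ?_, fun j hj => ?_, fun i => ?_, ?_⟩
    · rw [hx1 j fun h => hj (hF'F h)]
      have : j ∉ X := fun h => hj (hXF h)
      simp only [hy', if_neg this]
    · by_cases hj' : j ∈ Fs'
      · exact hx2 j hj'
      · obtain ⟨h1, h2, h3⟩ := hxX j hj hj'
        obtain ⟨r, hr⟩ := (mem_filter.1 h2).2
        have d0 := c0 j hj
        have d1 := c1 j hj
        have d2 := c2 j hj
        rw [hpz] at d1
        rw [hpk] at d2
        have hr0 : 0 ≤ r := by omega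
        have hr1 : r + 1 ≤ 2 ^ k := by omega
        have hr0' : (0 : ℝ) ≤ r := by exact_mod_cast hr0
        have hr1' : (r : ℝ) + 1 ≤ 2 ^ k := by exact_mod_cast hr1
        have h4 := abs_lt.1 h3
        rw [h1, d2, hr, abs_le]
        push_cast
        constructor
        · have : -1 + 2 * (2 * (r : ℝ) + 1) / (2 * 2 ^ k) + e j / 2 ^ k - (-1) =
              (2 * r + 1 + e j) / 2 ^ k := by field_simp; ring
          have h5 : 0 ≤ (2 * r + 1 + e j) / 2 ^ k := div_nonneg (by linarith) hk0.le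
          linarith
        · have : 1 - (-1 + 2 * (2 * (r : ℝ) + 1) / (2 * 2 ^ k) + e j / 2 ^ k) =
              (2 * 2 ^ k - (2 * r + 1) - e j) / 2 ^ k := by field_simp; ring
          have h5 : 0 ≤ (2 * 2 ^ k - (2 * r + 1) - e j) / 2 ^ k := div_nonneg (by linarith) hk0.le
          linarith
    · have e1 : ∑ j, A i j * (x j - y j) =
          ∑ j, A i j * (x j - y' j) + (∑ j ∈ X, A i j * e j) * (1 / 2 ^ k) := by
        have e2 : (∑ j ∈ X, A i j * e j) * (1 / 2 ^ k) =
            ∑ j, (if j ∈ X then A i j * e j * (1 / 2 ^ k) else 0) := by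
          rw [Finset.sum_mul, Finset.sum_ite_mem, Finset.univ_inter]
        rw [e2, ← Finset.sum_add_distrib]
        refine sum_congr rfl fun j _ => ?_
        simp only [hy']
        split_ifs
        · ring
        · ring
      have hF1 : F κ L' (en A X i) ≤ (k + 2) * F κ L (en A Fs i) := by
        have h1 : F κ L' (en A X i) ≤ F κ (((k : ℝ) + 2) * L) (en A X i) := by
          have hLL : L' ≤ ((k : ℝ) + 2) * L := by
            have h2 : ((k : ℝ) + 1) * Real.log 2 ≤ ((k : ℝ) + 1) * L :=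
              mul_le_mul_of_nonneg_left (by linarith) (by positivity)
            rw [hL']; linarith
          unfold F
          have h3 := K_mono hκ hLL
          have h4 : min 1 (qt L' * Real.sqrt (qt (en A X i))) ≤
              min 1 (qt (((k : ℝ) + 2) * L) * Real.sqrt (qt (en A X i))) :=
            min_le_min le_rfl (mul_le_mul_of_nonneg_right (qt_mono hLL) (Real.sqrt_nonneg _))
          have h5 := K_nonneg (L := ((k : ℝ) + 2) * L) hκ
          refine mul_le_mul (by linarith) h4 (le_min zero_le_one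
            (mul_nonneg (qt_nonneg _) (Real.sqrt_nonneg _))) (by positivity)
        refine h1.trans ((F_mul hκ (by have : (0 : ℝ) ≤ k := Nat.cast_nonneg k
                                       linarith)).trans ?_)
        exact mul_le_mul_of_nonneg_left (F_mono hκ (en_mono A hXF i)) (by positivity)
      have hF2 : F κ L (en A Fs' i) ≤ F κ L (en A Fs i) := F_mono hκ (en_mono A hF'F i)
      have hFn : 0 ≤ F κ L (en A Fs i) := F_nonneg hκ
      have hcoef : 0 ≤ 6 - 2 * ((k : ℝ) + 3) / 2 ^ k := by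
        have h1 : ((k : ℝ) + 3) ≤ 3 * 2 ^ k := by
          have h2 : ∀ k : ℕ, ((k : ℝ) + 3) ≤ 3 * 2 ^ k := by
            intro k
            induction k with
            | zero => norm_num
            | succ k ih =>
              rw [pow_succ]
              push_cast
              have : (1 : ℝ) ≤ 2 ^ k := one_le_pow₀ (by norm_num)
              linarith
          exact h2 k
        rw [sub_nonneg, div_le_iff₀ hk0]
        linarith
      have he2' : |∑ j ∈ X, A i j * e j| ≤ F κ L' (en A X i) := he2 i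
      rw [e1]
      calc _ ≤ |∑ j, A i j * (x j - y' j)| + |(∑ j ∈ X, A i j * e j) * (1 / 2 ^ k)| :=
            abs_add_le _ _
        _ ≤ (6 - 2 * (k + 3) / 2 ^ k) * F κ L (en A Fs i) +
            ((k + 2) * F κ L (en A Fs i)) * (1 / 2 ^ k) := by
            rw [abs_mul, abs_of_pos (show (0 : ℝ) < 1 / 2 ^ k by positivity)]
            refine add_le_add ((hx3 i).trans (mul_le_mul_of_nonneg_left hF2 hcoef)) ?_
            exact mul_le_mul_of_nonneg_right (he2'.trans hF1) (by positivity)
        _ = (6 - 2 * (((k + 1 : ℕ) : ℝ) + 3) / 2 ^ (k + 1)) * F κ L (en A Fs i) := by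
            rw [pow_succ]
            push_cast
            field_simp
            ring
    · -- weights
      have e1 : ∑ j ∈ Fs, (if |x j| < 1 then p j else 0) ≤
          ∑ j ∈ Fs', (if |x j| < 1 then p j else 0) + ∑ j ∈ X, (if |e j| < 1 then p j else 0) := by
        rw [← Finset.sum_sdiff hF'F, add_comm]
        refine add_le_add le_rfl ?_
        have h1 : ∑ j ∈ Fs \ Fs', (if |x j| < 1 then p j else 0) ≤
            ∑ j ∈ Fs \ Fs', (if |e j| < 1 then p j else 0) := by
          refine Finset.sum_le_sum fun j hj => ?_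
          rw [mem_sdiff] at hj
          rw [if_pos (hxX j hj.1 hj.2).2.2]
          split_ifs
          · exact le_rfl
          · exact hp j
        refine h1.trans (Finset.sum_le_sum_of_subset_of_nonneg ?_ fun j _ _ => ?_)
        · intro j hj
          rw [mem_sdiff] at hj
          exact (hxX j hj.1 hj.2).2.1
        · split_ifs
          · exact hp j
          · exact le_rfl
      have h1 : ∑ j ∈ Fs', p j ≤ ∑ j ∈ Fs, p j :=
        Finset.sum_le_sum_of_subset_of_nonneg hF'F fun j _ _ => hp j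
      have h2 : ∑ j ∈ X, p j ≤ ∑ j ∈ Fs, p j :=
        Finset.sum_le_sum_of_subset_of_nonneg hXF fun j _ _ => hp j
      have hE : 0 < Real.exp (-L) := Real.exp_pos _
      have hc1 : (0 : ℝ) ≤ 1 - 1 / 2 ^ k := by
        rw [sub_nonneg, div_le_one hk0]; exact one_le_pow₀ (by norm_num)
      calc _ ≤ (1 - 1 / 2 ^ k) * (Real.exp (-L) * ∑ j ∈ Fs', p j) +
            Real.exp (-L') * ∑ j ∈ X, p j := e1.trans (add_le_add hx4 he3)
        _ ≤ (1 - 1 / 2 ^ k) * (Real.exp (-L) * ∑ j ∈ Fs, p j) +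
            (Real.exp (-L) * (1 / 2 ^ (k + 1))) * ∑ j ∈ Fs, p j := by
            rw [hexp]
            gcongr
        _ = _ := by
            rw [pow_succ]
            field_simp
            ring

/-- Partial signings from an arbitrary starting point. -/
theorem start {A : Fin m → Fin n → ℝ} {κ : ℝ} (hκ : 0 ≤ κ) (hP : Part A κ) (L : ℝ)
    (hL : 1 ≤ L) (p : Fin n → ℝ) (hp : ∀ j, 0 ≤ p j) (x₀ : Fin n → ℝ) (hx₀ : ∀ j, |x₀ j| ≤ 1)
    (η : ℝ) (hη : 0 < η) :
    ∃ x : Fin n → ℝ, (∀ j, |x j| ≤ 1) ∧ (∀ j, |x₀ j| = 1 → x j = x₀ j) ∧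
      (∀ i, |∑ j, A i j * (x j - x₀ j)| ≤ 6 * F κ L (en A (al x₀) i) + η) ∧
      ∑ j ∈ al x, p j ≤ Real.exp (-L) * ∑ j ∈ al x₀, p j := by
  classical
  set S : ℝ := ∑ i, ∑ j, |A i j| with hS
  have hS0 : 0 ≤ S := sum_nonneg fun i _ => sum_nonneg fun j _ => abs_nonneg _
  have hSi : ∀ i, ∑ j, |A i j| ≤ S := fun i =>
    single_le_sum (f := fun i => ∑ j, |A i j|) (fun i _ => sum_nonneg fun j _ => abs_nonneg _)
      (mem_univ i)
  obtain ⟨k, hk⟩ : ∃ k : ℕ, 2 / 2 ^ k * S ≤ η := by
    obtain ⟨k, hk⟩ := exists_pow_lt_of_lt_one (show 0 < η / (2 * S + 1) by positivity)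
      (show (1 / 2 : ℝ) < 1 by norm_num)
    refine ⟨k, ?_⟩
    rw [lt_div_iff₀ (by positivity)] at hk
    have e1 : (2 : ℝ) / 2 ^ k * S = (1 / 2) ^ k * (2 * S) := by
      rw [div_pow, one_pow]; ring
    have e2 : (0 : ℝ) < (1 / 2) ^ k := by positivity
    rw [e1]
    linarith
  have hk0 : (0 : ℝ) < 2 ^ k := by positivity
  set c : Fin n → ℤ := fun j => ⌊(2 : ℝ) ^ k * ((1 + x₀ j) / 2)⌋ with hc
  set z : Fin n → ℝ := fun j => if j ∈ al x₀ then -1 + 2 * c j / 2 ^ k else x₀ j with hz
  have hzx : ∀ j, |z j - x₀ j| ≤ 2 / 2 ^ k := by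
    intro j
    simp only [hz]
    split_ifs with hj
    · have h1 := Int.floor_le ((2 : ℝ) ^ k * ((1 + x₀ j) / 2))
      have h2 := Int.lt_floor_add_one ((2 : ℝ) ^ k * ((1 + x₀ j) / 2))
      have e1 : -1 + 2 * (c j : ℝ) / 2 ^ k - x₀ j =
          2 / 2 ^ k * ((c j : ℝ) - 2 ^ k * ((1 + x₀ j) / 2)) := by
        field_simp
        ring
      rw [e1, abs_mul, abs_of_pos (show (0 : ℝ) < 2 / 2 ^ k by positivity)]
      have h3 : |(c j : ℝ) - 2 ^ k * ((1 + x₀ j) / 2)| ≤ 1 := by
        rw [abs_le]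
        constructor
        · linarith
        · linarith
      calc 2 / 2 ^ k * |(c j : ℝ) - 2 ^ k * ((1 + x₀ j) / 2)| ≤ 2 / 2 ^ k * 1 :=
            mul_le_mul_of_nonneg_left h3 (by positivity)
        _ = _ := mul_one _
    · rw [sub_self, abs_zero]; positivity
  obtain ⟨x, hx1, hx2, hx3, hx4⟩ := dyadic hκ hP L hL p hp k z (al x₀) (by
    intro j hj
    have h0 := abs_lt.1 (mem_al.1 hj)
    refine ⟨c j, ?_, ?_, ?_⟩
    · apply Int.floor_nonneg.2
      have : 0 ≤ (1 + x₀ j) / 2 := by linarith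
      positivity
    · have h1 : (c j : ℝ) ≤ 2 ^ k := by
        refine (Int.floor_le _).trans ?_
        have : (1 + x₀ j) / 2 ≤ 1 := by linarith
        calc (2 : ℝ) ^ k * ((1 + x₀ j) / 2) ≤ 2 ^ k * 1 := mul_le_mul_of_nonneg_left this hk0.le
          _ = _ := mul_one _
      exact_mod_cast h1
    · simp only [hz, if_pos hj])
  have hxz : ∀ j, j ∉ al x₀ → x j = x₀ j := by
    intro j hj
    rw [hx1 j hj]
    simp only [hz, if_neg hj]
  have hnal : ∀ j, j ∉ al x₀ → |x₀ j| = 1 := by
    intro j hj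
    rw [mem_al] at hj
    exact le_antisymm (hx₀ j) (not_lt.1 hj)
  refine ⟨x, fun j => ?_, fun j hj => hxz j fun h => ?_, fun i => ?_, ?_⟩
  · by_cases hj : j ∈ al x₀
    · exact hx2 j hj
    · rw [hxz j hj]; exact hx₀ j
  · rw [mem_al, hj] at h; exact lt_irrefl _ h
  · have e1 : ∑ j, A i j * (x j - x₀ j) = ∑ j, A i j * (x j - z j) + ∑ j, A i j * (z j - x₀ j) := by
      rw [← Finset.sum_add_distrib]
      exact sum_congr rfl fun j _ => by ring
    have h1 : |∑ j, A i j * (z j - x₀ j)| ≤ η := by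
      calc |∑ j, A i j * (z j - x₀ j)| ≤ ∑ j, |A i j * (z j - x₀ j)| := abs_sum_le_sum_abs _ _
        _ ≤ ∑ j, |A i j| * (2 / 2 ^ k) := by
            refine sum_le_sum fun j _ => ?_
            rw [abs_mul]
            exact mul_le_mul_of_nonneg_left (hzx j) (abs_nonneg _)
        _ = 2 / 2 ^ k * ∑ j, |A i j| := by rw [← Finset.sum_mul]; ring
        _ ≤ 2 / 2 ^ k * S := mul_le_mul_of_nonneg_left (hSi i) (by positivity)
        _ ≤ η := hk
    have h2 := hx3 i
    have hFn : 0 ≤ F κ L (en A (al x₀) i) := F_nonneg hκ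
    have h3 : (6 - 2 * ((k : ℝ) + 3) / 2 ^ k) * F κ L (en A (al x₀) i) ≤
        6 * F κ L (en A (al x₀) i) := by
      apply mul_le_mul_of_nonneg_right _ hFn
      have : 0 ≤ 2 * ((k : ℝ) + 3) / 2 ^ k := by positivity
      linarith
    rw [e1]
    exact (abs_add_le _ _).trans (add_le_add (h2.trans h3) h1)
  · have e1 : ∑ j ∈ al x, p j = ∑ j ∈ al x₀, (if |x j| < 1 then p j else 0) := by
      rw [← Finset.sum_filter]
      refine sum_congr ?_ fun _ _ => rfl
      ext j
      rw [mem_al, mem_filter, mem_al]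
      constructor
      · intro h
        refine ⟨?_, h⟩
        by_contra hcon
        have hj : j ∉ al x₀ := fun h' => hcon (mem_al.1 h')
        rw [hxz j hj, hnal j hj] at h
        exact lt_irrefl _ h
      · exact fun h => h.2
    rw [e1]
    refine hx4.trans ?_
    have hps : 0 ≤ Real.exp (-L) * ∑ j ∈ al x₀, p j :=
      mul_nonneg (Real.exp_pos _).le (sum_nonneg fun j _ => hp j)
    have : (0 : ℝ) < 1 / 2 ^ k := by positivity
    nlinarith

end Q156.Kom
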