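import Pool.Agent.Q156.Kom.Stages
import Pool.Agent.H167R2.FKMinimax

/-!
# Distributions on signings with fast decreasing tails
-/

set_option autoImplicit false

namespace Q156.Kom

open Finset Real

variable {m n : ℕ}

theorem tail_sum (y : ℝ) (hy : 2 ≤ y) (N : ℕ) :
    ∑ r ∈ range N, Real.exp (-(y * 4 ^ r) / 2) ≤ 2 * Real.exp (-y / 2) := by
  have h1 : ∀ r ∈ range N, Real.exp (-(y * 4 ^ r) / 2) ≤ Real.exp (-y / 2) * (1 / 2) ^ r := by
    intro r _
    have h2 : ∀ r : ℕ, (r : ℝ) + 1 ≤ 4 ^ r := by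
      intro r
      induction r with
      | zero => norm_num
      | succ r ih =>
        rw [pow_succ]; push_cast
        have : (0 : ℝ) ≤ r := Nat.cast_nonneg r
        linarith
    have h3 := h2 r
    have h4 : -(y * 4 ^ r) / 2 ≤ -y / 2 + (r : ℝ) * (-1) := by nlinarith
    have h5 : Real.exp (-1) ≤ 1 / 2 := by
      have := Real.exp_neg_one_lt_d9; linarith
    calc Real.exp (-(y * 4 ^ r) / 2) ≤ Real.exp (-y / 2 + (r : ℝ) * (-1)) := Real.exp_le_exp.2 h4
      _ = Real.exp (-y / 2) * Real.exp (-1) ^ r := by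
          rw [Real.exp_add, Real.exp_nat_mul]
      _ ≤ _ := mul_le_mul_of_nonneg_left (pow_le_pow_left₀ (Real.exp_pos _).le h5 r)
          (Real.exp_pos _).le
  have h2 : ∀ N : ℕ, ∑ r ∈ range N, (1 / 2 : ℝ) ^ r ≤ 2 := by
    intro N
    have := geom_sum_eq (show (1 / 2 : ℝ) ≠ 1 by norm_num) N
    rw [this]
    have h3 : (0 : ℝ) < (1 / 2) ^ N := by positivity
    rw [div_le_iff_of_neg (by norm_num)]
    linarith
  calc _ ≤ ∑ r ∈ range N, Real.exp (-y / 2) * (1 / 2) ^ r := sum_le_sum h1
    _ = Real.exp (-y / 2) * ∑ r ∈ range N, (1 / 2 : ℝ) ^ r := by rw [Finset.mul_sum]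
    _ ≤ Real.exp (-y / 2) * 2 := mul_le_mul_of_nonneg_left (h2 N) (Real.exp_pos _).le
    _ = _ := mul_comm _ _

theorem distribution {A : Fin m → Fin n → ℝ} {κ : ℝ} (hκ0 : 0 < κ) (hP : Part A κ) :
    ∃ (M : ℕ) (w : Fin M → ℝ) (x : Fin M → Fin n → ℝ), (∀ r, 0 ≤ w r) ∧ ∑ r, w r = 1 ∧
      (∀ r j, x r j = 1 ∨ x r j = -1) ∧
      ∀ (i : Fin m) (u : ℝ), 0 ≤ u →
        ∑ r ∈ univ.filter (fun r => 36000000000 * K κ (1 + u + Real.log (max 1 (∑ j, A i j ^ 2))) <
          |∑ j, A i j * x r j|), w r ≤ Real.exp (-u) := by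
  classical
  have hκ : 0 ≤ κ := hκ0.le
  set L0 : ℝ := max 1 (1 / κ ^ 2) with hL0d
  have hL0 : 1 ≤ L0 := le_max_left _ _
  have hκL : 1 ≤ κ * Real.sqrt L0 := by
    have h1 : Real.sqrt (1 / κ ^ 2) ≤ Real.sqrt L0 := Real.sqrt_le_sqrt (le_max_right _ _)
    rw [Real.sqrt_div zero_le_one, Real.sqrt_one, Real.sqrt_sq hκ] at h1
    calc (1 : ℝ) = κ * (1 / κ) := by field_simp
      _ ≤ _ := mul_le_mul_of_nonneg_left h1 hκ
  have hKL0 : K κ L0 ≤ 2 := by
    rcases max_choice 1 (1 / κ ^ 2) with h | h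
    · rw [hL0d, h]
      refine (min_le_left _ _).trans ?_
      rw [qt_one]; norm_num
    · rw [hL0d, h]
      refine (min_le_right _ _).trans (le_of_eq ?_)
      rw [Real.sqrt_div zero_le_one, Real.sqrt_one, Real.sqrt_sq hκ]
      field_simp
      norm_num
  obtain ⟨N, hNd⟩ : ∃ N : ℕ, N = n := ⟨n, rfl⟩
  have h4N : ∀ r : ℕ, (r : ℝ) + 1 ≤ 4 ^ r := by
    intro r
    induction r with
    | zero => norm_num
    | succ r ih =>
      rw [pow_succ]; push_cast
      have : (0 : ℝ) ≤ r := Nat.cast_nonneg r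
      linarith
  have hN : (n : ℝ) < Real.exp (L0 * 4 ^ N) := by
    have h1 := Real.add_one_le_exp (L0 * 4 ^ N)
    have h2 := h4N N
    have h3 : (4 : ℝ) ^ N ≤ L0 * 4 ^ N := by
      have : (0 : ℝ) < 4 ^ N := by positivity
      nlinarith
    have h4 : (n : ℝ) = N := by rw [hNd]
    linarith
  set E : Fin m → ℝ := fun i => ∑ j, A i j ^ 2 with hE
  have hE0 : ∀ i, 0 ≤ E i := fun i => sum_nonneg fun _ _ => sq_nonneg _
  set β : ℕ → ℝ := fun k => Real.exp (-(L0 * 4 ^ k) / 2) with hβ
  have hβ0 : ∀ k, 0 < β k := fun k => Real.exp_pos _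
  set c : Fin m × Fin N → ℝ := fun z => β z.2 * E z.1 with hc
  have hc0 : ∀ z, 0 ≤ c z := fun z => mul_nonneg (hβ0 _).le (hE0 _)
  let Good : Finset (Fin m × Fin N) → (Fin n → ℝ) → Prop := fun Bd x =>
    (∀ j, x j = 1 ∨ x j = -1) ∧
      ∀ (i : Fin m) (k : ℕ), (∀ k' : Fin N, k ≤ k' → (i, k') ∉ Bd) →
        |∑ j, A i j * x j| ≤ 12000000000 * K κ (L0 * 4 ^ k)
  let e : Fin m × Fin N ≃ Fin (m * N) := finProdFinEquiv
  let pat : Finset (Fin m × Fin N) → Fin (m * N) → ℝ := fun Bd t =>
    if e.symm t ∈ Bd then 1 / c (e.symm t) else 0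
  set Z : Finset (Fin (m * N) → ℝ) := (univ.filter (fun Bd => ∃ x, Good Bd x)).image pat with hZ
  have hZmem : ∀ z ∈ Z, ∃ Bd x, Good Bd x ∧ pat Bd = z := by
    intro z hz
    obtain ⟨Bd, h1, h2⟩ := mem_image.1 hz
    obtain ⟨x, hx⟩ := (mem_filter.1 h1).2
    exact ⟨Bd, x, hx, h2⟩
  obtain ⟨w, hw0, hw1, hw2⟩ := H167FK.minimax Z 1 (by
    intro P hPn
    obtain ⟨x, Bd, h1, h2, h3⟩ := signing hκ hP L0 hL0 hκL N hN
      (fun i k => P (e (i, k)) / c (i, k)) (fun i k => div_nonneg (hPn _) (hc0 _))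
    refine ⟨pat Bd, mem_image.2 ⟨Bd, mem_filter.2 ⟨mem_univ _, x, h1, h2⟩, rfl⟩, ?_⟩
    rw [one_mul]
    have e1 : ∑ t, P t * pat Bd t = ∑ z ∈ Bd, P (e z) / c z := by
      rw [← Equiv.sum_comp e]
      simp only [pat, Equiv.symm_apply_apply, mul_ite, mul_zero, mul_one_div]
      rw [Finset.sum_ite_mem, Finset.univ_inter]
    rw [e1]
    refine h3.trans ?_
    rw [← Equiv.sum_comp e P]
    refine sum_le_sum fun z _ => ?_
    have h4 : P (e (z.1, z.2)) / c (z.1, z.2) * (Real.exp (-(L0 * 4 ^ (z.2 : ℕ)) / 2) *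
        en A univ z.1) = P (e z) / c z * c z := rfl
    rw [h4]
    rcases (hc0 z).eq_or_lt with h | h
    · rw [← h, mul_zero]; exact hPn _
    · rw [div_mul_cancel₀ _ h.ne'])
  choose! Bf xf hf1 hf2 using hZmem
  let g : Fin Z.card ≃ Z := Z.equivFin.symm
  have hsumg : ∀ (p : (Fin (m * N) → ℝ) → Prop) [DecidablePred p],
      ∑ r ∈ univ.filter (fun r => p (g r)), w (g r) = ∑ z ∈ Z.filter p, w z := by
    intro p _
    rw [Finset.sum_filter, Finset.sum_filter,
      Equiv.sum_comp g (fun z : Z => if p z then w z else 0),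
      Finset.sum_coe_sort Z (fun z => if p z then w z else 0)]
  refine ⟨Z.card, fun r => w (g r), fun r => xf (g r), fun r => hw0 _ (g r).2, ?_,
    fun r j => (hf1 _ (g r).2).1 j, fun i u hu => ?_⟩
  · rw [Equiv.sum_comp g (fun z : Z => w z), Finset.sum_coe_sort Z w]
    exact hw1
  · set L : ℝ := 1 + u + Real.log (max 1 (∑ j, A i j ^ 2)) with hL
    have hmax : (1 : ℝ) ≤ max 1 (E i) := le_max_left _ _
    have hL1 : 1 ≤ L := by
      have : 0 ≤ Real.log (max 1 (∑ j, A i j ^ 2)) := Real.log_nonneg hmax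
      linarith
    rw [hsumg (fun z => 36000000000 * K κ L < |∑ j, A i j * xf z j|)]
    rcases (hE0 i).eq_or_lt with hEi | hEi
    · -- zero row
      have hz : ∀ j, A i j = 0 := by
        intro j
        have h4 := Finset.single_le_sum (f := fun j => A i j ^ 2) (fun j _ => sq_nonneg _)
          (Finset.mem_univ j)
        have h5 : A i j ^ 2 ≤ 0 := h4.trans (by simp only [hE] at hEi; exact hEi.ge)
        exact pow_eq_zero_iff two_ne_zero |>.mp (le_antisymm h5 (sq_nonneg _))
      rw [Finset.filter_false_of_mem]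
      · simp [Real.exp_nonneg]
      · intro z _
        have h6 : ∑ j, A i j * xf z j = 0 := sum_eq_zero fun j _ => by rw [hz j, zero_mul]
        rw [h6, abs_zero, not_lt]
        have := K_nonneg (L := L) hκ
        positivity
    · -- choose k
      obtain ⟨k, hk1, hk2⟩ : ∃ k : ℕ, 2 * L ≤ L0 * 4 ^ k ∧ K κ (L0 * 4 ^ k) ≤ 3 * K κ L := by
        have hex : ∃ k : ℕ, 2 * L ≤ L0 * 4 ^ k := by
          obtain ⟨k, hk⟩ := exists_nat_ge (2 * L)
          refine ⟨k, ?_⟩
          have h2 := h4N k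
          have : (0 : ℝ) < 4 ^ k := by positivity
          nlinarith
        refine ⟨Nat.find hex, Nat.find_spec hex, ?_⟩
        rcases Nat.eq_zero_or_pos (Nat.find hex) with h0 | h0
        · rw [h0, pow_zero, mul_one]
          have := one_le_K hκ hL1
          linarith
        · obtain ⟨k, hk⟩ := Nat.exists_eq_succ_of_ne_zero h0.ne'
          have h1 := Nat.find_min hex (m := k) (by omega)
          rw [not_le] at h1
          rw [hk, Nat.succ_eq_add_one, pow_succ]
          have h2 : K κ (L0 * (4 ^ k * 4)) ≤ K κ (8 * L) := K_mono hκ (by linarith)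
          have h3 := K_mul (κ := κ) (L := L) (c := 8) hκ (by norm_num)
          have h4 : Real.sqrt 8 ≤ 3 := by
            rw [Real.sqrt_le_left (by norm_num)]; norm_num
          have h5 := K_nonneg (L := L) hκ
          nlinarith
      have hsub : Z.filter (fun z => 36000000000 * K κ L < |∑ j, A i j * xf z j|) ⊆
          (univ.filter (fun k' : Fin N => k ≤ k')).biUnion
            (fun k' => Z.filter (fun z => (i, k') ∈ Bf z)) := by
        intro z hz
        obtain ⟨hz1, hz2⟩ := mem_filter.1 hz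
        by_contra hcon
        rw [mem_biUnion, not_exists] at hcon
        have h1 := (hf1 z hz1).2 i k (fun k' hk' hmem => hcon k' ⟨mem_filter.2 ⟨mem_univ _, hk'⟩,
          mem_filter.2 ⟨hz1, hmem⟩⟩)
        have h2 : 12000000000 * K κ (L0 * 4 ^ k) ≤ 36000000000 * K κ L := by linarith
        linarith
      have hbad : ∀ k' : Fin N, ∑ z ∈ Z.filter (fun z => (i, k') ∈ Bf z), w z ≤ β k' * E i := by
        intro k'
        have hci : 0 < c (i, k') := mul_pos (hβ0 _) hEi
        have h1 := hw2 (e (i, k'))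
        have h2 : ∑ z ∈ Z, w z * z (e (i, k')) =
            (∑ z ∈ Z.filter (fun z => (i, k') ∈ Bf z), w z) * (1 / c (i, k')) := by
          rw [Finset.sum_mul, Finset.sum_filter]
          refine sum_congr rfl fun z hz => ?_
          have h3 : z (e (i, k')) = pat (Bf z) (e (i, k')) := by rw [hf2 z hz]
          rw [h3]
          simp only [pat, Equiv.symm_apply_apply]
          split_ifs
          · rfl
          · rw [mul_zero]
        rw [h2, mul_one_div, div_le_one hci] at h1
        exact h1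
      have h1 : ∑ z ∈ Z.filter (fun z => 36000000000 * K κ L < |∑ j, A i j * xf z j|), w z ≤
          ∑ k' ∈ univ.filter (fun k' : Fin N => k ≤ k'),
            ∑ z ∈ Z.filter (fun z => (i, k') ∈ Bf z), w z := by
        have h2 : ∑ k' ∈ univ.filter (fun k' : Fin N => k ≤ k'),
            ∑ z ∈ Z.filter (fun z => (i, k') ∈ Bf z), w z =
            ∑ z ∈ Z, ∑ k' ∈ univ.filter (fun k' : Fin N => k ≤ k'),
              (if (i, k') ∈ Bf z then w z else 0) := by
          rw [Finset.sum_comm]
          refine sum_congr rfl fun k' _ => ?_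
          rw [Finset.sum_filter]
        rw [h2, Finset.sum_filter]
        refine sum_le_sum fun z hz => ?_
        have h3 : ∀ k' ∈ univ.filter (fun k' : Fin N => k ≤ k'),
            0 ≤ (if (i, k') ∈ Bf z then w z else 0) := by
          intro k' _
          split_ifs
          · exact hw0 z hz
          · exact le_rfl
        split_ifs with h
        · obtain ⟨k', hk', hmem⟩ := mem_biUnion.1 (hsub (mem_filter.2 ⟨hz, h⟩))
          have h4 := Finset.single_le_sum h3 hk'
          rwa [if_pos (mem_filter.1 hmem).2] at h4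
        · exact sum_nonneg h3
      refine h1.trans ((sum_le_sum fun k' _ => hbad k').trans ?_)
      have h2 : ∑ k' ∈ univ.filter (fun k' : Fin N => k ≤ k'), β k' * E i ≤
          (∑ r ∈ range N, Real.exp (-((L0 * 4 ^ k) * 4 ^ r) / 2)) * E i := by
        rw [Finset.sum_mul]
        have h3 : ∑ k' ∈ univ.filter (fun k' : Fin N => k ≤ k'), β k' * E i =
            ∑ r ∈ (univ.filter (fun k' : Fin N => k ≤ k')).image (fun k' : Fin N => (k' : ℕ) - k),
              Real.exp (-((L0 * 4 ^ k) * 4 ^ r) / 2) * E i := by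
          rw [Finset.sum_image]
          · refine sum_congr rfl fun k' hk' => ?_
            have hkk := (mem_filter.1 hk').2
            have e1 : L0 * 4 ^ (k' : ℕ) = L0 * 4 ^ k * 4 ^ ((k' : ℕ) - k) := by
              rw [mul_assoc, ← pow_add, Nat.add_sub_cancel' hkk]
            simp only [hβ]
            rw [e1]
          · intro a ha b hb hab
            have ha' := (mem_filter.1 ha).2
            have hb' := (mem_filter.1 hb).2
            simp only at hab
            apply Fin.ext
            omega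
        rw [h3]
        refine Finset.sum_le_sum_of_subset_of_nonneg ?_ fun r _ _ =>
          mul_nonneg (Real.exp_pos _).le (hE0 i)
        intro r hr
        obtain ⟨k', _, h⟩ := mem_image.1 hr
        rw [mem_range, ← h]
        have := k'.2
        omega
      refine h2.trans ?_
      have h3 := tail_sum (L0 * 4 ^ k) (by linarith) N
      have h4 : Real.exp (-(L0 * 4 ^ k) / 2) ≤ Real.exp (-L) := Real.exp_le_exp.2 (by linarith)
      have h5 : Real.exp (-L) = Real.exp (-1) * Real.exp (-u) * (1 / max 1 (E i)) := by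
        rw [hL, neg_add, neg_add, Real.exp_add, Real.exp_add, Real.exp_neg (Real.log _),
          Real.exp_log (by positivity), one_div]
      have h6 := Real.exp_neg_one_lt_d9
      have h7 : E i * (1 / max 1 (E i)) ≤ 1 := by
        rw [mul_one_div, div_le_one (by linarith)]
        exact le_max_right _ _
      calc (∑ r ∈ range N, Real.exp (-((L0 * 4 ^ k) * 4 ^ r) / 2)) * E i
          ≤ (2 * Real.exp (-L)) * E i := by
            apply mul_le_mul_of_nonneg_right _ (hE0 i)
            linarith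
        _ = (2 * Real.exp (-1)) * Real.exp (-u) * (E i * (1 / max 1 (E i))) := by
            rw [h5]; ring
        _ ≤ 1 * Real.exp (-u) * 1 := by
            refine mul_le_mul ?_ h7 (by have := hE0 i; positivity) (by positivity)
            apply mul_le_mul_of_nonneg_right _ (Real.exp_pos _).le
            linarith
        _ = _ := by ring

end Q156.Kom
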