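import Pool.Agent.Q156.Kom.Quarter

/-!
# Partial signings of subfamilies, in the normalisation of the Komlós problem
-/

set_option autoImplicit false

namespace Q156.Kom

open Finset Real

variable {m n : ℕ}

/-- The main cost: `min (L ^ (1/4)) (1 + κ √L)`. -/
noncomputable def K (κ L : ℝ) : ℝ := min (qt L) (1 + κ * Real.sqrt L)

/-- The cost for a row of energy `E`. -/
noncomputable def F (κ L E : ℝ) : ℝ := 35250000 * K κ L * min 1 (qt L * Real.sqrt (qt E))

/-- `κ = δ (1 + log (1 / δ)) ^ (3/2)`. -/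
noncomputable def kap (δ : ℝ) : ℝ := δ * (1 + Real.log (1 / δ)) ^ (3 / 2 : ℝ)

theorem qt_mul {x y : ℝ} (hx : 0 ≤ x) : qt (x * y) = qt x * qt y := by
  unfold qt
  rw [Real.sqrt_mul hx, Real.sqrt_mul (Real.sqrt_nonneg _)]

theorem qt_one : qt 1 = 1 := by unfold qt; simp

theorem one_le_qt {x : ℝ} (h : 1 ≤ x) : 1 ≤ qt x := by
  have := qt_mono h
  rwa [qt_one] at this

theorem qt_le_sqrt {x : ℝ} (h : 1 ≤ x) : qt x ≤ Real.sqrt x := by
  unfold qt
  apply Real.sqrt_le_sqrt
  rw [Real.sqrt_le_left (by linarith)]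
  nlinarith

theorem K_nonneg {κ L : ℝ} (hκ : 0 ≤ κ) : 0 ≤ K κ L :=
  le_min (qt_nonneg _) (by positivity)

theorem one_le_K {κ L : ℝ} (hκ : 0 ≤ κ) (hL : 1 ≤ L) : 1 ≤ K κ L :=
  le_min (one_le_qt hL) (by have : 0 ≤ κ * Real.sqrt L := by positivity
                            linarith)

theorem K_mono {κ L L' : ℝ} (hκ : 0 ≤ κ) (h : L ≤ L') : K κ L ≤ K κ L' := by
  unfold K
  have h1 : κ * Real.sqrt L ≤ κ * Real.sqrt L' :=
    mul_le_mul_of_nonneg_left (Real.sqrt_le_sqrt h) hκ
  exact min_le_min (qt_mono h) (by linarith)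

theorem K_mul {κ L c : ℝ} (hκ : 0 ≤ κ) (hc : 1 ≤ c) : K κ (c * L) ≤ Real.sqrt c * K κ L := by
  have h1 : 1 ≤ Real.sqrt c := Real.one_le_sqrt.2 hc
  unfold K
  rw [mul_min_of_nonneg _ _ (by linarith)]
  refine min_le_min ?_ ?_
  · rw [qt_mul (by linarith)]
    exact mul_le_mul_of_nonneg_right (qt_le_sqrt hc) (qt_nonneg _)
  · rw [Real.sqrt_mul (by linarith)]
    have : 0 ≤ κ * Real.sqrt L := by positivity
    nlinarith

theorem F_nonneg {κ L E : ℝ} (hκ : 0 ≤ κ) : 0 ≤ F κ L E := by
  unfold F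
  have h1 := K_nonneg (L := L) hκ
  have h2 : 0 ≤ min 1 (qt L * Real.sqrt (qt E)) :=
    le_min zero_le_one (mul_nonneg (qt_nonneg _) (Real.sqrt_nonneg _))
  positivity

theorem F_mono {κ L E E' : ℝ} (hκ : 0 ≤ κ) (h : E ≤ E') : F κ L E ≤ F κ L E' := by
  unfold F
  have h1 := K_nonneg (L := L) hκ
  refine mul_le_mul_of_nonneg_left (min_le_min le_rfl ?_) (by positivity)
  exact mul_le_mul_of_nonneg_left (Real.sqrt_le_sqrt (qt_mono h)) (qt_nonneg _)

theorem F_mul {κ L E c : ℝ} (hκ : 0 ≤ κ) (hc : 1 ≤ c) : F κ (c * L) E ≤ c * F κ L E := by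
  have h1 : 1 ≤ Real.sqrt c := Real.one_le_sqrt.2 hc
  have h2 := K_mul (L := L) hκ hc
  have h3 : min 1 (qt (c * L) * Real.sqrt (qt E)) ≤
      Real.sqrt c * min 1 (qt L * Real.sqrt (qt E)) := by
    rw [mul_min_of_nonneg _ _ (by linarith)]
    refine min_le_min (by linarith) ?_
    rw [qt_mul (by linarith), ← mul_assoc]
    refine mul_le_mul_of_nonneg_right ?_ (Real.sqrt_nonneg _)
    exact mul_le_mul_of_nonneg_right (qt_le_sqrt hc) (qt_nonneg _)
  have h4 : 0 ≤ min 1 (qt (c * L) * Real.sqrt (qt E)) :=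
    le_min zero_le_one (mul_nonneg (qt_nonneg _) (Real.sqrt_nonneg _))
  have h5 := K_nonneg (L := L) hκ
  unfold F
  calc 35250000 * K κ (c * L) * min 1 (qt (c * L) * Real.sqrt (qt E))
      ≤ 35250000 * (Real.sqrt c * K κ L) * (Real.sqrt c * min 1 (qt L * Real.sqrt (qt E))) :=
        mul_le_mul (by linarith) h3 h4 (by positivity)
    _ = (Real.sqrt c * Real.sqrt c) * (35250000 * K κ L * min 1 (qt L * Real.sqrt (qt E))) := by
        ring
    _ = _ := by rw [Real.mul_self_sqrt (by linarith)]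

theorem F_le_K {κ L E : ℝ} (hκ : 0 ≤ κ) : F κ L E ≤ 35250000 * K κ L := by
  unfold F
  have h1 := K_nonneg (L := L) hκ
  calc _ ≤ 35250000 * K κ L * 1 := mul_le_mul_of_nonneg_left (min_le_left _ _) (by positivity)
    _ = _ := mul_one _

/-- Partial signings of all subfamilies. -/
def Part (A : Fin m → Fin n → ℝ) (κ : ℝ) : Prop :=
  ∀ (X : Finset (Fin n)) (L : ℝ), 1 ≤ L → ∀ p : Fin n → ℝ, (∀ j, 0 ≤ p j) →
    ∃ y : Fin n → ℝ, (∀ j, |y j| ≤ 1) ∧
      (∀ i, |∑ j ∈ X, A i j * y j| ≤ F κ L (∑ j ∈ X, A i j ^ 2)) ∧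
      ∑ j ∈ X, (if |y j| < 1 then p j else 0) ≤ Real.exp (-L) * ∑ j ∈ X, p j

theorem weighted_all (A : Fin m → Fin n → ℝ) (δ : ℝ) (hδ0 : 0 < δ) (hδ1 : δ ≤ 1)
    (hA : ∀ i j, |A i j| ≤ δ) (hcol : ∀ j, ∑ i, A i j ^ 2 ≤ 1) (L : ℝ) (hL : 1 ≤ L)
    (p : Fin n → ℝ) (hp0 : ∀ j, 0 ≤ p j) :
    ∃ x : Fin n → ℝ, (∀ j, |x j| ≤ 1) ∧
      (∀ i, |∑ j, A i j * x j| ≤ F (kap δ) L (∑ j, A i j ^ 2)) ∧
      ∑ j, (if |x j| < 1 then p j else 0) ≤ Real.exp (-L) * ∑ j, p j := by
  classical
  set ε : ℝ := Real.exp (-L) with hε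
  have hε0 : 0 < ε := Real.exp_pos _
  have hε2 : ε ≤ 1 / 2 := by
    have h1 : Real.exp (-L) ≤ Real.exp (-1) := Real.exp_le_exp.2 (by linarith)
    have h2 := Real.exp_neg_one_lt_d9
    linarith
  have hlog : Real.log (1 / ε) = L := by
    rw [one_div, Real.log_inv, hε, Real.log_exp, neg_neg]
  obtain ⟨s, Y, h1, h2, h3, h4, h5, h6⟩ := H167KL.exists_params ε hε0 hε2
  have hs4 : 4 ≤ s := by
    by_contra hcon
    have : (s : ℝ) ≤ 4 := by exact_mod_cast (by omega : s ≤ 4)
    nlinarith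
  set t : ℝ := 1 / δ ^ 2 with ht
  have ht1 : 1 ≤ t := by
    rw [ht, le_div_iff₀ (by positivity)]
    nlinarith
  have hst : Real.sqrt t = 1 / δ := by
    rw [ht, Real.sqrt_div (by norm_num), Real.sqrt_one, Real.sqrt_sq hδ0.le]
  -- sort the weights
  let σ : Equiv.Perm (Fin n) := Tuple.sort (fun j => -p j)
  have hσ : Antitone (p ∘ σ) := by
    have h7 : Monotone ((fun j => -p j) ∘ σ) := Tuple.monotone_sort _
    intro i j hij
    have := h7 hij
    simp only [Function.comp_apply] at this ⊢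
    linarith
  obtain ⟨x, hx1, hx2, hx3⟩ := weighted_aux2 (fun i j => A i (σ j) / δ) t ht1
    (fun i j => by
      rw [abs_div, abs_of_pos hδ0, div_le_one hδ0]; exact hA i (σ j))
    (fun j => by
      have h7 := hcol (σ j)
      simp only [div_pow]
      rw [← Finset.sum_div, ht]
      exact div_le_div_of_nonneg_right h7 (by positivity)) s hs4 Y
    h2 h3 ε hε0 (by linarith) h4 h5 (p ∘ σ) (fun j => hp0 _) hσ
  refine ⟨fun j => x (σ.symm j), fun j => hx1 _, ?_, ?_⟩
  · intro i
    have h7 : ∑ j, A i j * x (σ.symm j) = δ * ∑ j, (A i (σ j) / δ) * x j := by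
      rw [← Equiv.sum_comp σ, Finset.mul_sum]
      refine Finset.sum_congr rfl fun j _ => ?_
      rw [Equiv.symm_apply_apply]
      field_simp
    have h8 : ∑ j, (A i (σ j) / δ / Real.sqrt t) ^ 2 = ∑ j, A i j ^ 2 := by
      rw [← Equiv.sum_comp σ (fun j => A i j ^ 2)]
      refine Finset.sum_congr rfl fun j _ => ?_
      rw [hst]
      field_simp
    rw [h7, abs_mul, abs_of_pos hδ0]
    have h9 := hx2 i
    rw [h8] at h9
    set E : ℝ := ∑ j, A i j ^ 2 with hE
    have hY : 960 * Y ≤ 43200 * L := by rw [hlog] at h6; linarith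
    have hq : qt (960 * Y) ≤ 15 * qt L := by
      refine qt_le_of_le_pow (by have := qt_nonneg L; positivity) ?_
      rw [mul_pow, qt_pow (by linarith)]
      linarith
    have hsq : Real.sqrt (960 * Y) ≤ 208 * Real.sqrt L := by
      rw [Real.sqrt_le_left (by positivity), mul_pow, Real.sq_sqrt (by linarith)]
      linarith
    have hc : δ * c1 t Y ≤ 470000 * K (kap δ) L := by
      unfold K
      rw [mul_min_of_nonneg _ _ (by norm_num)]
      refine le_min ?_ ?_
      · calc δ * c1 t Y ≤ δ * (520 * qt (960 * Y) * Real.sqrt t) :=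
              mul_le_mul_of_nonneg_left (min_le_right _ _) hδ0.le
          _ = 520 * qt (960 * Y) := by rw [hst]; field_simp
          _ ≤ 470000 * qt L := by have := qt_nonneg L; linarith
      · have hld : 0 ≤ Real.log (1 / δ) := Real.log_nonneg (by
          rw [le_div_iff₀ hδ0]; linarith)
        have hlt : Real.log t = 2 * Real.log (1 / δ) := by
          rw [ht, one_div, one_div, Real.log_inv, Real.log_inv, Real.log_pow]
          push_cast
          ring
        have hp : (1 + Real.log t) ^ (3 / 2 : ℝ) ≤ 3 * (1 + Real.log (1 / δ)) ^ (3 / 2 : ℝ) := by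
          have h4 : 1 + Real.log t ≤ 2 * (1 + Real.log (1 / δ)) := by rw [hlt]; linarith
          calc (1 + Real.log t) ^ (3 / 2 : ℝ) ≤ (2 * (1 + Real.log (1 / δ))) ^ (3 / 2 : ℝ) := by
                apply Real.rpow_le_rpow _ h4 (by norm_num)
                rw [hlt]; linarith
            _ = 2 ^ (3 / 2 : ℝ) * (1 + Real.log (1 / δ)) ^ (3 / 2 : ℝ) :=
                Real.mul_rpow (by norm_num) (by linarith)
            _ ≤ 3 * (1 + Real.log (1 / δ)) ^ (3 / 2 : ℝ) := by
                gcongr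
                have h5 : (2 : ℝ) ^ (3 / 2 : ℝ) = 2 * Real.sqrt 2 := by
                  rw [show (3 / 2 : ℝ) = 1 + 1 / 2 by norm_num, Real.rpow_add (by norm_num),
                    Real.rpow_one, ← Real.sqrt_eq_rpow]
                have h6 : Real.sqrt 2 ≤ 3 / 2 := by
                  rw [Real.sqrt_le_left (by norm_num)]
                  norm_num
                rw [h5]
                linarith
        set P : ℝ := (1 + Real.log (1 / δ)) ^ (3 / 2 : ℝ) with hP
        have hP0 : 0 ≤ P := by positivity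
        have hP1 : 0 ≤ (1 + Real.log t) ^ (3 / 2 : ℝ) := by
          apply Real.rpow_nonneg; rw [hlt]; linarith
        have hk : kap δ = δ * P := rfl
        calc δ * c1 t Y ≤ δ * H167KL.cost t Y :=
              mul_le_mul_of_nonneg_left (min_le_left _ _) hδ0.le
          _ = 520 * (δ * Real.sqrt t) +
              753 * (δ * (Real.sqrt (960 * Y) * (1 + Real.log t) ^ (3 / 2 : ℝ))) := by
              unfold H167KL.cost; ring
          _ ≤ 520 + 753 * (δ * ((208 * Real.sqrt L) * (3 * P))) := by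
              have e1 : δ * Real.sqrt t = 1 := by rw [hst]; field_simp
              rw [e1, mul_one]
              have e2 : Real.sqrt (960 * Y) * (1 + Real.log t) ^ (3 / 2 : ℝ) ≤
                  (208 * Real.sqrt L) * (3 * P) := mul_le_mul hsq hp hP1 (by positivity)
              have e3 := mul_le_mul_of_nonneg_left e2 hδ0.le
              linarith
          _ ≤ 470000 * (1 + kap δ * Real.sqrt L) := by
              rw [hk]
              have : 0 ≤ δ * P * Real.sqrt L := by positivity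
              nlinarith
    have hm : min 6 (5 * qt (960 * Y) * Real.sqrt (qt E)) ≤
        75 * min 1 (qt L * Real.sqrt (qt E)) := by
      rw [mul_min_of_nonneg _ _ (by norm_num)]
      refine min_le_min (by norm_num) ?_
      have h0 : 0 ≤ Real.sqrt (qt E) := Real.sqrt_nonneg _
      calc 5 * qt (960 * Y) * Real.sqrt (qt E) ≤ 5 * (15 * qt L) * Real.sqrt (qt E) := by
            gcongr
        _ = _ := by ring
    calc δ * |∑ j, A i (σ j) / δ * x j| ≤ δ * (c1 t Y * min 6 (5 * qt (960 * Y) *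
          Real.sqrt (qt E))) := mul_le_mul_of_nonneg_left h9 hδ0.le
      _ = (δ * c1 t Y) * min 6 (5 * qt (960 * Y) * Real.sqrt (qt E)) := by ring
      _ ≤ (470000 * K (kap δ) L) * (75 * min 1 (qt L * Real.sqrt (qt E))) := by
          refine mul_le_mul hc hm (le_min (by norm_num) ?_) ?_
          · have := qt_nonneg (960 * Y)
            positivity
          · have hld : 0 ≤ Real.log (1 / δ) := Real.log_nonneg (by
              rw [le_div_iff₀ hδ0]; linarith)
            have hk0 : 0 ≤ kap δ := by unfold kap; positivity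
            have := K_nonneg (L := L) hk0
            positivity
      _ = F (kap δ) L E := by unfold F; ring
  · have h7 : ∑ j, (if |x (σ.symm j)| < 1 then p j else 0)
        = ∑ j, (if |x j| < 1 then p (σ j) else 0) := by
      rw [← Equiv.sum_comp σ]
      refine Finset.sum_congr rfl fun j _ => ?_
      rw [Equiv.symm_apply_apply]
    have h8 : ∑ j, (p ∘ σ) j = ∑ j, p j := by
      simp only [Function.comp_apply]
      exact Equiv.sum_comp σ p
    rw [h7]
    rw [h8] at hx3
    exact hx3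

theorem kap_pos {δ : ℝ} (hδ0 : 0 < δ) (hδ1 : δ ≤ 1) : 0 < kap δ := by
  have hld : 0 ≤ Real.log (1 / δ) := Real.log_nonneg (by rw [le_div_iff₀ hδ0]; linarith)
  unfold kap
  positivity

theorem part_of_entries (A : Fin m → Fin n → ℝ) (δ : ℝ) (hδ0 : 0 < δ) (hδ1 : δ ≤ 1)
    (hA : ∀ i j, |A i j| ≤ δ) (hcol : ∀ j, ∑ i, A i j ^ 2 ≤ 1) : Part A (kap δ) := by
  classical
  intro X L hL p hp
  obtain ⟨x, h1, h2, h3⟩ := weighted_all (fun i j => if j ∈ X then A i j else 0) δ hδ0 hδ1
    (fun i j => by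
      split_ifs
      · exact hA i j
      · rw [abs_zero]; exact hδ0.le)
    (fun j => by
      by_cases hj : j ∈ X
      · simp only [if_pos hj]; exact hcol j
      · simp [if_neg hj])
    L hL (fun j => if j ∈ X then p j else 0) (fun j => by
      split_ifs
      · exact hp j
      · exact le_rfl)
  refine ⟨x, h1, fun i => ?_, ?_⟩
  · have h4 := h2 i
    simp only [ite_mul, zero_mul, ite_pow, ne_eq, OfNat.ofNat_ne_zero, not_false_eq_true,
      zero_pow] at h4
    rwa [Finset.sum_ite_mem, Finset.univ_inter, Finset.sum_ite_mem, Finset.univ_inter] at h4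
  · have e1 : ∑ j, (if |x j| < 1 then (if j ∈ X then p j else 0) else 0) =
        ∑ j ∈ X, (if |x j| < 1 then p j else 0) := by
      rw [← Finset.sum_filter_add_sum_filter_not Finset.univ (fun j => j ∈ X)]
      rw [Finset.filter_mem_eq_inter, Finset.univ_inter]
      have e2 : ∑ j ∈ Finset.univ.filter (fun j => ¬ j ∈ X),
          (if |x j| < 1 then (if j ∈ X then p j else 0) else 0) = 0 := by
        refine Finset.sum_eq_zero fun j hj => ?_
        rw [if_neg (Finset.mem_filter.1 hj).2]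
        split_ifs <;> rfl
      rw [e2, add_zero]
      refine Finset.sum_congr rfl fun j hj => ?_
      rw [if_pos hj]
    rw [e1, Finset.sum_ite_mem, Finset.univ_inter] at h3
    exact h3

end Q156.Kom
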